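import Mathlib

set_option autoImplicit false

namespace Pool.Agent.MP9dd505

open Set Filter Topology MeasureTheory intervalIntegral
open scoped Interval

/-- Cauchy type integral. -/
noncomputable def cint (γ φ : ℝ → ℂ) (a b : ℝ) (z : ℂ) : ℂ := ∫ t in a..b, φ t / (γ t - z)

lemma exists_dist_lb {K : Set ℂ} (hK : IsCompact K) {z : ℂ} (hz : z ∉ K) :
    ∃ d : ℝ, 0 < d ∧ ∀ w ∈ K, d ≤ ‖w - z‖ := by
  have h1 : Kᶜ ∈ 𝓝 z := hK.isClosed.isOpen_compl.mem_nhds hz
  obtain ⟨d, hd, h2⟩ := Metric.mem_nhds_iff.mp h1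
  refine ⟨d, hd, fun w hw => ?_⟩
  by_contra h3
  push Not at h3
  have : w ∈ Metric.ball z d := by rwa [Metric.mem_ball, dist_eq_norm]
  exact h2 this hw

lemma cint_differentiableAt {γ φ : ℝ → ℂ} (hγ : Continuous γ) (hφ : Continuous φ) {a b : ℝ}
    {z : ℂ} (hz : ∀ t ∈ uIcc a b, γ t ≠ z) : DifferentiableAt ℂ (cint γ φ a b) z := by
  have hK : IsCompact (γ '' uIcc a b) := isCompact_uIcc.image hγ
  have hz' : z ∉ γ '' uIcc a b := by
    rintro ⟨t, ht, h⟩
    exact hz t ht h
  obtain ⟨d, hd, hdK⟩ := exists_dist_lb hK hz'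
  have hlow : ∀ z' ∈ Metric.ball z (d / 2), ∀ t ∈ uIcc a b, d / 2 ≤ ‖γ t - z'‖ := by
    intro z' hz' t ht
    have h1 := hdK (γ t) ⟨t, ht, rfl⟩
    have h2 : ‖z' - z‖ < d / 2 := by rwa [Metric.mem_ball, dist_eq_norm] at hz'
    have h3 : ‖γ t - z‖ ≤ ‖γ t - z'‖ + ‖z' - z‖ := by
      have : γ t - z = (γ t - z') + (z' - z) := by ring
      rw [this]
      exact norm_add_le _ _
    linarith
  have hcont : ∀ z' ∈ Metric.ball z (d / 2), ContinuousOn (fun t => φ t / (γ t - z')) (uIcc a b) := by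
    intro z' hz'
    refine ContinuousOn.div hφ.continuousOn (hγ.continuousOn.sub continuousOn_const) ?_
    intro t ht h0
    have := hlow z' hz' t ht
    rw [h0, norm_zero] at this
    linarith
  have hmeas : ∀ z' : ℂ, AEStronglyMeasurable (fun t => φ t / (γ t - z'))
      (volume.restrict (Ι a b)) := by
    intro z'
    exact (Measurable.div hφ.measurable (hγ.measurable.sub_const z')).aestronglyMeasurable
  obtain ⟨C, hC⟩ : ∃ C : ℝ, ∀ t ∈ uIcc a b, ‖φ t‖ ≤ C :=
    isCompact_uIcc.exists_bound_of_continuousOn hφ.continuousOn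
  have key := intervalIntegral.hasDerivAt_integral_of_dominated_loc_of_deriv_le
    (μ := volume) (a := a) (b := b) (F := fun z' t => φ t / (γ t - z'))
    (F' := fun z' t => φ t / (γ t - z') ^ 2) (x₀ := z) (s := Metric.ball z (d / 2))
    (bound := fun _ => C / (d / 2) ^ 2) (Metric.ball_mem_nhds z (by positivity))
    (Eventually.of_forall hmeas)
    ((hcont z (Metric.mem_ball_self (by positivity))).intervalIntegrable)
    ((Measurable.div hφ.measurable ((hγ.measurable.sub_const z).pow_const 2)).aestronglyMeasurable)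
    ?_ (intervalIntegrable_const) ?_
  · exact key.2.differentiableAt
  · refine Eventually.of_forall fun t ht z' hz' => ?_
    have ht' : t ∈ uIcc a b := uIoc_subset_uIcc ht
    have h1 := hlow z' hz' t ht'
    rw [norm_div, norm_pow]
    have h2 := hC t ht'
    have h3 : (d / 2) ^ 2 ≤ ‖γ t - z'‖ ^ 2 := by gcongr
    have h4 : 0 < (d / 2) ^ 2 := by positivity
    exact div_le_div₀ (le_trans (norm_nonneg _) h2) h2 h4 h3
  · refine Eventually.of_forall fun t ht z' hz' => ?_
    have ht' : t ∈ uIcc a b := uIoc_subset_uIcc ht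
    have h1 := hlow z' hz' t ht'
    have h0 : γ t - z' ≠ 0 := by
      intro h0
      rw [h0, norm_zero] at h1
      linarith
    have h2 : HasDerivAt (fun w : ℂ => γ t - w) (-1) z' := by
      simpa using (hasDerivAt_id z').const_sub (γ t)
    have h3 := (h2.inv h0).const_mul (φ t)
    have h4 : (fun w : ℂ => φ t / (γ t - w)) = fun w => φ t * (γ t - w)⁻¹ := by
      ext w
      rw [div_eq_mul_inv]
    rw [h4]
    have h5 : φ t * (- -1 / (γ t - z') ^ 2) = φ t / (γ t - z') ^ 2 := by
      rw [neg_neg]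
      ring
    rw [h5] at h3
    exact h3

lemma log_I_mul_of_re_pos {b : ℂ} (hb : 0 < b.re) :
    Complex.log (Complex.I * b) - Complex.log (-(Complex.I * b)) = Real.pi * Complex.I := by
  have hb0 : b ≠ 0 := by
    rintro rfl
    simp at hb
  have harg : |Complex.arg b| < Real.pi / 2 := Complex.abs_arg_lt_pi_div_two_iff.mpr (Or.inl hb)
  have h1 := abs_lt.mp harg
  have e1 : Complex.log (Complex.I * b) = Complex.log Complex.I + Complex.log b := by
    refine Complex.log_mul Complex.I_ne_zero hb0 ?_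
    rw [Complex.arg_I]
    constructor <;> linarith [Real.pi_pos, h1.1, h1.2]
  have e2 : Complex.log (-(Complex.I * b)) = Complex.log (-Complex.I) + Complex.log b := by
    rw [← neg_mul]
    refine Complex.log_mul (neg_ne_zero.mpr Complex.I_ne_zero) hb0 ?_
    rw [Complex.arg_neg_I]
    constructor <;> linarith [Real.pi_pos, h1.1, h1.2]
  rw [e1, e2, Complex.log_I, Complex.log_neg_I]
  ring

lemma log_I_mul_of_re_neg {b : ℂ} (hb : b.re < 0) :
    Complex.log (Complex.I * b) - Complex.log (-(Complex.I * b)) = -(Real.pi * Complex.I) := by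
  have h := log_I_mul_of_re_pos (b := -b) (by simpa using hb)
  rw [mul_neg, neg_neg] at h
  rw [← h]
  ring

end Pool.Agent.MP9dd505
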