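import Mathlib
import Pool.Agent.Lib.MP_9dd505_an.CauchyInt

set_option autoImplicit false

namespace Pool.Agent.MP9dd505

open Set Filter Topology MeasureTheory intervalIntegral
open scoped Interval

/-- A compact region in the complex plane whose boundary is parametrised by closed curves of class
`C^1`, with the region on the left. -/
structure Region (M : Set ℂ) {m : ℕ} (γ : Fin m → ℝ → ℂ) : Prop where
  compact : IsCompact M
  c1 : ∀ i, ContDiff ℝ 1 (γ i)
  per : ∀ i, Function.Periodic (γ i) 1
  reg : ∀ i t, deriv (γ i) t ≠ 0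
  inj : ∀ i j s t, γ i s = γ j t → i = j ∧ ∃ k : ℤ, s = t + k
  front : frontier M = ⋃ i, range (γ i)
  left : ∀ i t, ∃ ω : ℂ, 0 < ω.im ∧ ∀ᶠ ε : ℝ in 𝓝[>] 0,
    γ i t + ε * (ω * deriv (γ i) t) ∈ interior M ∧ γ i t - ε * (ω * deriv (γ i) t) ∉ M

variable {M : Set ℂ} {m : ℕ} {γ : Fin m → ℝ → ℂ}

/-- `2 π i` times the winding number. -/
noncomputable def wind (γ : Fin m → ℝ → ℂ) (z : ℂ) : ℂ :=
  ∑ i, cint (γ i) (deriv (γ i)) 0 1 z

lemma log_integral {g : ℝ → ℂ} (hg : ContDiff ℝ 1 g) {a b : ℝ} {z κ : ℂ}
    (h : ∀ t ∈ uIcc a b, κ * (g t - z) ∈ Complex.slitPlane) :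
    ∫ t in a..b, deriv g t / (g t - z)
      = Complex.log (κ * (g b - z)) - Complex.log (κ * (g a - z)) := by
  have hdiff : Differentiable ℝ g := hg.differentiable one_ne_zero
  have hne : ∀ t ∈ uIcc a b, κ ≠ 0 ∧ g t - z ≠ 0 := by
    intro t ht
    have := Complex.slitPlane_ne_zero (h t ht)
    exact ⟨left_ne_zero_of_mul this, right_ne_zero_of_mul this⟩
  have hd : ∀ t ∈ uIcc a b, HasDerivAt (fun t => Complex.log (κ * (g t - z)))
      (deriv g t / (g t - z)) t := by
    intro t ht
    have h1 : HasDerivAt g (deriv g t) t := (hdiff t).hasDerivAt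
    have h2 : HasDerivAt (fun t => κ * (g t - z)) (κ * deriv g t) t :=
      (h1.sub_const z).const_mul κ
    have h3 := h2.clog_real (h t ht)
    have h4 : κ * deriv g t / (κ * (g t - z)) = deriv g t / (g t - z) :=
      mul_div_mul_left _ _ (hne t ht).1
    rwa [h4] at h3
  refine intervalIntegral.integral_eq_sub_of_hasDerivAt hd ?_
  refine ContinuousOn.intervalIntegrable ?_
  refine ContinuousOn.div ?_ ?_ fun t ht => (hne t ht).2
  · exact (hg.continuous_deriv le_rfl).continuousOn
  · exact (hdiff.continuous.sub continuous_const).continuousOn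

namespace Region

lemma cont (h : Region M γ) (i : Fin m) : Continuous (γ i) :=
  (h.c1 i).continuous

lemma contDeriv (h : Region M γ) (i : Fin m) : Continuous (deriv (γ i)) :=
  (h.c1 i).continuous_deriv le_rfl

lemma range_eq (h : Region M γ) (i : Fin m) : range (γ i) = γ i '' Icc 0 1 := by
  have := (h.per i).image_Icc one_pos 0
  rw [zero_add] at this
  exact this.symm

lemma compact_frontier (h : Region M γ) : IsCompact (frontier M) := by
  rw [h.front]
  refine isCompact_iUnion fun i => ?_
  rw [h.range_eq i]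
  exact isCompact_Icc.image (h.cont i)

lemma mem_front (h : Region M γ) (i : Fin m) (t : ℝ) : γ i t ∈ frontier M := by
  rw [h.front]
  exact mem_iUnion.mpr ⟨i, t, rfl⟩

lemma wind_locally_const (h : Region M γ) {z : ℂ} (hz : z ∉ frontier M) :
    ∀ᶠ z' in 𝓝 z, wind γ z' = wind γ z := by
  obtain ⟨d, hd, hdK⟩ := exists_dist_lb h.compact_frontier hz
  filter_upwards [Metric.ball_mem_nhds z hd] with z' hz'
  rw [Metric.mem_ball, dist_eq_norm] at hz'
  unfold wind
  refine Finset.sum_congr rfl fun i _ => ?_
  have hne : ∀ t, γ i t - z ≠ 0 := by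
    intro t h0
    have := hdK _ (h.mem_front i t)
    rw [h0, norm_zero] at this
    linarith
  have hlt : ∀ t, ‖(z - z') / (γ i t - z)‖ < 1 := by
    intro t
    have h1 := hdK _ (h.mem_front i t)
    rw [norm_div, div_lt_one (by linarith), norm_sub_rev]
    linarith
  have hslit : ∀ t, (γ i t - z') / (γ i t - z) ∈ Complex.slitPlane := by
    intro t
    have h1 : (γ i t - z') / (γ i t - z) = 1 + (z - z') / (γ i t - z) := by
      field_simp [hne t]
      ring
    rw [h1]
    exact Complex.mem_slitPlane_of_norm_lt_one (hlt t)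
  have hne' : ∀ t, γ i t - z' ≠ 0 := by
    intro t h0
    have := Complex.slitPlane_ne_zero (hslit t)
    rw [h0, zero_div] at this
    exact this rfl
  have hdiff : Differentiable ℝ (γ i) := (h.c1 i).differentiable one_ne_zero
  have hd : ∀ t ∈ uIcc (0 : ℝ) 1, HasDerivAt
      (fun t => Complex.log ((γ i t - z') / (γ i t - z)))
      (deriv (γ i) t / (γ i t - z') - deriv (γ i) t / (γ i t - z)) t := by
    intro t _
    have h1 : HasDerivAt (γ i) (deriv (γ i) t) t := (hdiff t).hasDerivAt
    have h2 := (h1.sub_const z').div (h1.sub_const z) (hne t)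
    have h3 := h2.clog_real (hslit t)
    refine h3.congr_deriv ?_
    simp only [Pi.div_apply]
    have e1 := hne t
    have e2 := hne' t
    field_simp
    try ring
  have hint : ∀ w, (∀ t, γ i t - w ≠ 0) →
      IntervalIntegrable (fun t => deriv (γ i) t / (γ i t - w)) volume 0 1 := by
    intro w hw
    refine ContinuousOn.intervalIntegrable ?_
    exact ContinuousOn.div (h.contDeriv i).continuousOn
      ((h.cont i).sub continuous_const).continuousOn fun t _ => hw t
  have hFTC := intervalIntegral.integral_eq_sub_of_hasDerivAt hd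
    ((hint z' hne').sub (hint z hne))
  rw [intervalIntegral.integral_sub (hint z' hne') (hint z hne)] at hFTC
  have hper : γ i 1 = γ i 0 := by
    have := h.per i 0
    rwa [zero_add] at this
  rw [hper, sub_self] at hFTC
  exact sub_eq_zero.mp hFTC

end Region

end Pool.Agent.MP9dd505
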