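import Mathlib
import Pool.Agent.Lib.MP_9dd505_an.Geom

set_option autoImplicit false

namespace Pool.Agent.MP9dd505

open Set Filter Topology MeasureTheory intervalIntegral
open scoped Interval

variable {M : Set ℂ} {m : ℕ} {γ : Fin m → ℝ → ℂ}

/-- A truncated open double-sided cone (one side), with apex `q` and axis direction `i τ`. -/
def cone (τ : ℂ) (η δ σ : ℝ) (q : ℂ) : Set ℂ :=
  {z | ‖z - q‖ < δ ∧ η * |((z - q) / τ).re| < σ * ((z - q) / τ).im}

lemma cone_convex {τ : ℂ} {η δ σ : ℝ} (hη : 0 ≤ η) (q : ℂ) : Convex ℝ (cone τ η δ σ q) := by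
  intro z hz w hw a b ha hb hab
  obtain ⟨hz1, hz2⟩ := hz
  obtain ⟨hw1, hw2⟩ := hw
  have hb1 : a • z + b • w ∈ Metric.ball q δ := by
    refine (convex_ball q δ) ?_ ?_ ha hb hab
    · rwa [Metric.mem_ball, dist_eq_norm]
    · rwa [Metric.mem_ball, dist_eq_norm]
  refine ⟨by rwa [Metric.mem_ball, dist_eq_norm] at hb1, ?_⟩
  have e : (a • z + b • w - q) / τ = (a : ℂ) * ((z - q) / τ) + (b : ℂ) * ((w - q) / τ) := by
    have hq : q = ((a : ℂ) + b) * q := by
      have : (a : ℂ) + b = 1 := by exact_mod_cast hab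
      rw [this, one_mul]
    rw [Complex.real_smul, Complex.real_smul]
    have : (a : ℂ) * z + b * w - q = (a : ℂ) * (z - q) + b * (w - q) := by
      linear_combination (-1 : ℂ) * hq
    rw [this]
    ring
  rw [e]
  set Z := (z - q) / τ
  set W := (w - q) / τ
  have e1 : ((a : ℂ) * Z + (b : ℂ) * W).re = a * Z.re + b * W.re := by simp
  have e2 : ((a : ℂ) * Z + (b : ℂ) * W).im = a * Z.im + b * W.im := by simp
  rw [e1, e2]
  have h1 : |a * Z.re + b * W.re| ≤ a * |Z.re| + b * |W.re| := by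
    refine (abs_add_le _ _).trans ?_
    rw [abs_mul, abs_mul, abs_of_nonneg ha, abs_of_nonneg hb]
  have h2 : η * |a * Z.re + b * W.re| ≤ a * (η * |Z.re|) + b * (η * |W.re|) := by
    calc η * |a * Z.re + b * W.re| ≤ η * (a * |Z.re| + b * |W.re|) :=
          mul_le_mul_of_nonneg_left h1 hη
      _ = _ := by ring
  have h3 : a * (η * |Z.re|) + b * (η * |W.re|) < a * (σ * Z.im) + b * (σ * W.im) := by
    rcases ha.eq_or_lt with ha0 | ha0
    · have hb1 : b = 1 := by linarith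
      rw [← ha0, hb1]
      linarith
    · have := mul_lt_mul_of_pos_left hz2 ha0
      have := mul_le_mul_of_nonneg_left hw2.le hb
      linarith
  calc η * |a * Z.re + b * W.re| ≤ _ := h2
    _ < _ := h3
    _ = _ := by ring

/-- Local constancy off a set. -/
def LC (S : Set ℂ) (D : ℂ → ℂ) : Prop := ∀ z, z ∉ S → ∀ᶠ z' in 𝓝 z, D z' = D z

lemma LC.const_on {S : Set ℂ} {D : ℂ → ℂ} (hD : LC S D) {C : Set ℂ} (hC : IsPreconnected C)
    (hdisj : ∀ z ∈ C, z ∉ S) {x y : ℂ} (hx : x ∈ C) (hy : y ∈ C) : D x = D y := by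
  refine hC.induction₂' (fun x y => D x = D y) ?_ ?_ hx hy
  · intro z hz
    have h := hD z (hdisj z hz)
    filter_upwards [nhdsWithin_le_nhds h] with w hw
    exact ⟨hw.symm, hw⟩
  · intro x y z _ _ _ h1 h2
    exact h1.trans h2

namespace Region

lemma strict_est (h : Region M γ) (i : Fin m) (t0 : ℝ) {η : ℝ} (hη : 0 < η) :
    ∃ ρ : ℝ, 0 < ρ ∧ ∀ s s' : ℝ, |s - t0| < ρ → |s' - t0| < ρ →
      ‖(γ i s - γ i s') / deriv (γ i) t0 - ((s - s' : ℝ) : ℂ)‖ ≤ η * |s - s'| := by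
  have hs : HasStrictDerivAt (γ i) (deriv (γ i) t0) t0 :=
    (h.c1 i).contDiffAt.hasStrictDerivAt one_ne_zero
  have hτ := h.reg i t0
  have hτ' : 0 < ‖deriv (γ i) t0‖ := norm_pos_iff.mpr hτ
  have h1 := hs.hasStrictFDerivAt.isLittleO
  have h2 := h1.def (mul_pos hη hτ')
  rw [Metric.eventually_nhds_iff] at h2
  obtain ⟨ρ, hρ, h3⟩ := h2
  refine ⟨ρ, hρ, fun s s' hs1 hs2 => ?_⟩
  have h4 : dist ((s, s') : ℝ × ℝ) (t0, t0) < ρ := by
    rw [Prod.dist_eq, max_lt_iff, Real.dist_eq, Real.dist_eq]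
    exact ⟨hs1, hs2⟩
  have h5 := h3 h4
  simp only [ContinuousLinearMap.toSpanSingleton_apply, Real.norm_eq_abs] at h5
  have h6 : (γ i s - γ i s') / deriv (γ i) t0 - ((s - s' : ℝ) : ℂ)
      = (γ i s - γ i s' - (s - s') • deriv (γ i) t0) / deriv (γ i) t0 := by
    rw [Complex.real_smul]
    field_simp
  rw [h6, norm_div, div_le_iff₀ hτ']
  calc _ ≤ η * ‖deriv (γ i) t0‖ * |s - s'| := h5
    _ = _ := by ring

lemma separation (h : Region M γ) (i : Fin m) (t0 : ℝ) {ρ : ℝ} (hρ : 0 < ρ) :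
    ∃ δ : ℝ, 0 < δ ∧ ∀ q ∈ frontier M, ‖q - γ i t0‖ < δ → ∃ s : ℝ, |s - t0| < ρ ∧ γ i s = q := by
  set K : Set ℂ := ⋃ j, γ j '' (Icc (t0 - 1 / 2) (t0 + 1 / 2) ∩ {s | j ≠ i ∨ ρ ≤ |s - t0|})
  have hK : IsCompact K := by
    refine isCompact_iUnion fun j => IsCompact.image ?_ (h.cont j)
    refine isCompact_Icc.inter_right ?_
    have hc1 : IsClosed {s : ℝ | ρ ≤ |s - t0|} :=
      isClosed_le continuous_const ((continuous_id.sub continuous_const).abs)
    have hc2 : IsClosed {_s : ℝ | j ≠ i} := isClosed_const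
    exact hc2.union hc1
  have hp : γ i t0 ∉ K := by
    intro hp
    obtain ⟨j, s, ⟨hs1, hs2⟩, hs3⟩ := mem_iUnion.mp hp
    obtain ⟨hj, k, hk⟩ := h.inj j i s t0 hs3
    have hk0 : k = 0 := by
      rw [hk] at hs1
      have h1 : (k : ℝ) ≤ 1 / 2 := by linarith [hs1.2]
      have h2 : -(1 / 2) ≤ (k : ℝ) := by linarith [hs1.1]
      have h3 : (k : ℝ) < 1 := by linarith
      have h4 : (-1 : ℝ) < k := by linarith
      have h3' : k < 1 := by exact_mod_cast h3
      have h4' : -1 < k := by exact_mod_cast h4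
      omega
    rcases hs2 with hs2 | hs2
    · exact hs2 hj
    · rw [hk, hk0] at hs2
      simp at hs2
      linarith
  obtain ⟨δ, hδ, hδK⟩ := exists_dist_lb hK hp
  refine ⟨δ, hδ, fun q hq hqp => ?_⟩
  rw [h.front] at hq
  obtain ⟨j, s, hs⟩ := mem_iUnion.mp hq
  set k : ℤ := round (s - t0)
  have hk : |s - t0 - k| ≤ 1 / 2 := abs_sub_round _
  have hk' := abs_le.mp hk
  have hper : γ j (s - k) = q := by
    rw [← hs]
    have := (h.per j).sub_zsmul_eq k (x := s)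
    simpa using this
  by_cases hc : j ≠ i ∨ ρ ≤ |s - k - t0|
  · exfalso
    have hqK : q ∈ K := by
      refine mem_iUnion.mpr ⟨j, s - k, ⟨⟨by linarith [hk'.1], by linarith [hk'.2]⟩, hc⟩, hper⟩
    have := hδK q hqK
    linarith
  · push Not at hc
    obtain ⟨hj, hlt⟩ := hc
    subst hj
    exact ⟨s - k, hlt, hper⟩

lemma thin (h : Region M γ) (i : Fin m) (t0 : ℝ) {η : ℝ} (hη : 0 < η) :
    ∃ δ : ℝ, 0 < δ ∧ ∀ q ∈ frontier M, ∀ q' ∈ frontier M, ‖q - γ i t0‖ < δ →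
      ‖q' - γ i t0‖ < δ → |((q' - q) / deriv (γ i) t0).im| ≤ η * |((q' - q) / deriv (γ i) t0).re| := by
  have hη1 : 0 < min (η / 2) (1 / 2) := by positivity
  obtain ⟨ρ, hρ, h1⟩ := h.strict_est i t0 hη1
  obtain ⟨δ, hδ, h2⟩ := h.separation i t0 hρ
  refine ⟨δ, hδ, fun q hq q' hq' hqp hqp' => ?_⟩
  obtain ⟨s, hs, rfl⟩ := h2 q hq hqp
  obtain ⟨s', hs', rfl⟩ := h2 q' hq' hqp'
  have h3 := h1 s' s hs' hs
  set ζ := (γ i s' - γ i s) / deriv (γ i) t0
  set x := s' - s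
  have h4 : |ζ.im| ≤ min (η / 2) (1 / 2) * |x| := by
    have : (ζ - (x : ℂ)).im = ζ.im := by simp
    rw [← this]
    exact (Complex.abs_im_le_norm _).trans h3
  have h5 : |ζ.re - x| ≤ min (η / 2) (1 / 2) * |x| := by
    have : (ζ - (x : ℂ)).re = ζ.re - x := by simp
    rw [← this]
    exact (Complex.abs_re_le_norm _).trans h3
  have h6 : |x| ≤ |ζ.re| + |ζ.re - x| := by
    have : x = ζ.re - (ζ.re - x) := by ring
    calc |x| = |ζ.re - (ζ.re - x)| := by rw [← this]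
      _ ≤ _ := abs_sub _ _
  have h7 : min (η / 2) (1 / 2) * |x| ≤ 1 / 2 * |x| :=
    mul_le_mul_of_nonneg_right (min_le_right _ _) (abs_nonneg _)
  have h8 : min (η / 2) (1 / 2) * |x| ≤ η / 2 * |x| :=
    mul_le_mul_of_nonneg_right (min_le_left _ _) (abs_nonneg _)
  have h9 : |x| ≤ 2 * |ζ.re| := by linarith
  calc |ζ.im| ≤ η / 2 * |x| := h4.trans h8
    _ ≤ η / 2 * (2 * |ζ.re|) := mul_le_mul_of_nonneg_left h9 (by positivity)
    _ = _ := by ring

/-- Both cones at boundary points near `γ i t0` are disjoint from the boundary. -/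
lemma cone_disj (h : Region M γ) (i : Fin m) (t0 : ℝ) {η : ℝ} (hη : 0 < η) :
    ∃ δ : ℝ, 0 < δ ∧ ∀ q ∈ frontier M, ‖q - γ i t0‖ < δ → ∀ σ : ℝ, |σ| = 1 →
      ∀ z ∈ cone (deriv (γ i) t0) η δ σ q, z ∉ frontier M := by
  obtain ⟨δ, hδ, h1⟩ := h.thin i t0 hη
  refine ⟨δ / 2, by positivity, fun q hq hqp σ hσ z hz hzf => ?_⟩
  obtain ⟨hz1, hz2⟩ := hz
  have h2 : ‖z - γ i t0‖ < δ := by
    have : z - γ i t0 = (z - q) + (q - γ i t0) := by ring
    rw [this]
    have := norm_add_le (z - q) (q - γ i t0)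
    linarith
  have h3 := h1 q hq z hzf (by linarith) h2
  have h4 : σ * ((z - q) / deriv (γ i) t0).im ≤ |((z - q) / deriv (γ i) t0).im| := by
    calc _ ≤ |σ * ((z - q) / deriv (γ i) t0).im| := le_abs_self _
      _ = _ := by rw [abs_mul, hσ, one_mul]
  linarith

lemma exists_foot (h : Region M γ) (i : Fin m) (t0 : ℝ) {ε : ℝ} (hε : 0 < ε) :
    ∃ δ : ℝ, 0 < δ ∧ ∀ z : ℂ, ‖z - γ i t0‖ < δ → ∃ q ∈ frontier M, ‖q - γ i t0‖ < ε ∧
      ((z - q) / deriv (γ i) t0).re = 0 := by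
  obtain ⟨ρ, hρ, h1⟩ := h.strict_est i t0 (η := 1 / 2) (by norm_num)
  have hτ : 0 < ‖deriv (γ i) t0‖ := norm_pos_iff.mpr (h.reg i t0)
  set τ := deriv (γ i) t0
  set r : ℝ := min (ρ / 2) (ε / (2 * ‖τ‖)) with hr
  have hr0 : 0 < r := by positivity
  have hrρ : r < ρ := lt_of_le_of_lt (min_le_left _ _) (by linarith)
  have h2 : ∀ s, |s - t0| ≤ r → ‖(γ i s - γ i t0) / τ - ((s - t0 : ℝ) : ℂ)‖ ≤ 1 / 2 * |s - t0| := by
    intro s hs
    exact h1 s t0 (by linarith) (by simpa using hρ)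
  have h2re : ∀ s, |s - t0| ≤ r → |((γ i s - γ i t0) / τ).re - (s - t0)| ≤ 1 / 2 * |s - t0| := by
    intro s hs
    have : ((γ i s - γ i t0) / τ - ((s - t0 : ℝ) : ℂ)).re = ((γ i s - γ i t0) / τ).re - (s - t0) := by
      simp
    rw [← this]
    exact (Complex.abs_re_le_norm _).trans (h2 s hs)
  refine ⟨r * ‖τ‖ / 2, by positivity, fun z hz => ?_⟩
  set x := ((z - γ i t0) / τ).re
  have hx : |x| < r / 2 := by
    calc |x| ≤ ‖(z - γ i t0) / τ‖ := Complex.abs_re_le_norm _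
      _ = ‖z - γ i t0‖ / ‖τ‖ := norm_div _ _
      _ < r / 2 := by
        rw [div_lt_iff₀ hτ]
        linarith
  have hx' := abs_lt.mp hx
  have hcont : ContinuousOn (fun s => ((γ i s - γ i t0) / τ).re) (Icc (t0 - r) (t0 + r)) := by
    have : Continuous fun s => ((γ i s - γ i t0) / τ).re :=
      Complex.continuous_re.comp (((h.cont i).sub continuous_const).div_const τ)
    exact this.continuousOn
  have ha : ((γ i (t0 - r) - γ i t0) / τ).re ≤ x := by
    have h3 : |t0 - r - t0| = r := by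
      have : t0 - r - t0 = -r := by ring
      rw [this, abs_neg, abs_of_pos hr0]
    have h4 := abs_le.mp (h2re (t0 - r) h3.le)
    rw [h3] at h4
    linarith [h4.2, hx'.1]
  have hb : x ≤ ((γ i (t0 + r) - γ i t0) / τ).re := by
    have h3 : |t0 + r - t0| = r := by
      have : t0 + r - t0 = r := by ring
      rw [this, abs_of_pos hr0]
    have h4 := abs_le.mp (h2re (t0 + r) h3.le)
    rw [h3] at h4
    linarith [h4.1, hx'.2]
  obtain ⟨s, hs, hsx⟩ := intermediate_value_Icc (by linarith) hcont ⟨ha, hb⟩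
  have hs' : |s - t0| ≤ r := abs_le.mpr ⟨by linarith [hs.1], by linarith [hs.2]⟩
  refine ⟨γ i s, h.mem_front i s, ?_, ?_⟩
  · have h5 := h2 s hs'
    have h6 : ‖(γ i s - γ i t0) / τ‖ ≤ 3 / 2 * r := by
      have e : (γ i s - γ i t0) / τ
          = ((γ i s - γ i t0) / τ - ((s - t0 : ℝ) : ℂ)) + ((s - t0 : ℝ) : ℂ) := by ring
      rw [e]
      refine (norm_add_le _ _).trans ?_
      have : ‖((s - t0 : ℝ) : ℂ)‖ = |s - t0| := by
        rw [Complex.norm_real, Real.norm_eq_abs]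
      rw [this]
      linarith
    rw [norm_div, div_le_iff₀ hτ] at h6
    have h7 : r * ‖τ‖ ≤ ε / 2 := by
      calc r * ‖τ‖ ≤ ε / (2 * ‖τ‖) * ‖τ‖ := mul_le_mul_of_nonneg_right (min_le_right _ _) hτ.le
        _ = ε / 2 := by field_simp
    linarith
  · have e : (z - γ i s) / τ = (z - γ i t0) / τ - (γ i s - γ i t0) / τ := by ring
    rw [e, Complex.sub_re]
    simp only at hsx
    rw [hsx]
    exact sub_self _

lemma local_two (h : Region M γ) {D : ℂ → ℂ} (hD : LC (frontier M) D) (i : Fin m) (t0 : ℝ)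
    {cp cm : ℂ}
    (hp : ∀ᶠ ε : ℝ in 𝓝[>] 0, D (γ i t0 + ε * (Complex.I * deriv (γ i) t0)) = cp)
    (hm : ∀ᶠ ε : ℝ in 𝓝[>] 0, D (γ i t0 - ε * (Complex.I * deriv (γ i) t0)) = cm) :
    ∀ᶠ z in 𝓝 (γ i t0), z ∉ frontier M → D z = cp ∨ D z = cm := by
  obtain ⟨δ, hδ, h1⟩ := h.cone_disj i t0 (η := 1 / 2) (by norm_num)
  have hτ0 := h.reg i t0
  have hτ : 0 < ‖deriv (γ i) t0‖ := norm_pos_iff.mpr hτ0
  set τ := deriv (γ i) t0
  set p := γ i t0
  have hpF : p ∈ frontier M := h.mem_front i t0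
  have hconst : ∀ q ∈ frontier M, ‖q - p‖ < δ → ∀ σ : ℝ, |σ| = 1 →
      ∀ z ∈ cone τ (1 / 2) δ σ q, ∀ w ∈ cone τ (1 / 2) δ σ q, D z = D w := by
    intro q hq hqp σ hσ z hz w hw
    exact hD.const_on (cone_convex (by norm_num) q).isPreconnected
      (fun z hz => h1 q hq hqp σ hσ z hz) hz hw
  -- points on the axis
  have haxis : ∀ (σ : ℝ), |σ| = 1 → ∀ ε : ℝ, 0 < ε → ε * ‖τ‖ < δ →
      p + σ * (ε * (Complex.I * τ)) ∈ cone τ (1 / 2) δ σ p := by
    intro σ hσ ε hε hεδ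
    have e : p + σ * (ε * (Complex.I * τ)) - p = ((σ * ε : ℝ) : ℂ) * Complex.I * τ := by
      push_cast
      ring
    refine ⟨?_, ?_⟩
    · rw [e, norm_mul, norm_mul, Complex.norm_I, Complex.norm_real, Real.norm_eq_abs, abs_mul, hσ,
        abs_of_pos hε]
      linarith
    · rw [e, mul_div_assoc, div_self hτ0, mul_one]
      have e1 : (((σ * ε : ℝ) : ℂ) * Complex.I).re = 0 := by simp
      have e2 : (((σ * ε : ℝ) : ℂ) * Complex.I).im = σ * ε := by simp
      rw [e1, e2, abs_zero, mul_zero]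
      have : σ * σ = 1 := by
        rw [← abs_mul_abs_self, hσ, one_mul]
      calc (0 : ℝ) < ε := hε
        _ = σ * (σ * ε) := by rw [← mul_assoc, this, one_mul]
  set ε₀ : ℝ := δ / (8 * ‖τ‖) with hε₀
  have hε₀pos : 0 < ε₀ := by positivity
  have hε₀τ : ε₀ * ‖τ‖ = δ / 8 := by
    rw [hε₀]
    field_simp
  -- value at the axis point
  have hval : ∀ (σ : ℝ), |σ| = 1 → ∀ c : ℂ,
      (∀ᶠ ε : ℝ in 𝓝[>] 0, D (p + σ * (ε * (Complex.I * τ))) = c) →
      D (p + σ * (ε₀ * (Complex.I * τ))) = c := by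
    intro σ hσ c hc
    have h2 : ∀ᶠ ε : ℝ in 𝓝[>] 0, 0 < ε ∧ ε < δ / ‖τ‖ := by
      have : Ioo (0 : ℝ) (δ / ‖τ‖) ∈ 𝓝[>] (0 : ℝ) := Ioo_mem_nhdsGT (by positivity)
      exact this
    obtain ⟨ε, hε1, hε2, hε3⟩ := (hc.and h2).exists
    rw [← hε1]
    refine hconst p hpF (by simpa using hδ) σ hσ _ (haxis σ hσ ε₀ hε₀pos ?_) _
      (haxis σ hσ ε hε2 ?_)
    · rw [hε₀τ]
      linarith
    · rwa [lt_div_iff₀ hτ] at hε3
  -- the axis point belongs to the cones at nearby boundary points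
  have hcone : ∀ q, ‖q - p‖ < δ / 32 → ∀ σ : ℝ, |σ| = 1 →
      p + σ * (ε₀ * (Complex.I * τ)) ∈ cone τ (1 / 2) δ σ q := by
    intro q hq σ hσ
    have e : p + σ * (ε₀ * (Complex.I * τ)) - q = ((σ * ε₀ : ℝ) : ℂ) * Complex.I * τ + (p - q) := by
      push_cast
      ring
    have hpq : ‖p - q‖ < δ / 32 := by rwa [norm_sub_rev]
    refine ⟨?_, ?_⟩
    · rw [e]
      refine lt_of_le_of_lt (norm_add_le _ _) ?_
      rw [norm_mul, norm_mul, Complex.norm_I, Complex.norm_real, Real.norm_eq_abs, abs_mul, hσ,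
        abs_of_pos hε₀pos]
      linarith
    · rw [e, add_div, mul_div_assoc, div_self hτ0, mul_one, Complex.add_re, Complex.add_im]
      have e1 : (((σ * ε₀ : ℝ) : ℂ) * Complex.I).re = 0 := by simp
      have e2 : (((σ * ε₀ : ℝ) : ℂ) * Complex.I).im = σ * ε₀ := by simp
      rw [e1, e2, zero_add]
      have hσσ : σ * σ = 1 := by
        rw [← abs_mul_abs_self, hσ, one_mul]
      have hn : ‖(p - q) / τ‖ < ε₀ / 4 := by
        rw [norm_div, div_lt_iff₀ hτ]
        nlinarith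
      have hre : |((p - q) / τ).re| < ε₀ / 4 := (Complex.abs_re_le_norm _).trans_lt hn
      have him : |((p - q) / τ).im| < ε₀ / 4 := (Complex.abs_im_le_norm _).trans_lt hn
      have him' : -(ε₀ / 4) < σ * ((p - q) / τ).im := by
        have : |σ * ((p - q) / τ).im| < ε₀ / 4 := by rwa [abs_mul, hσ, one_mul]
        exact (abs_lt.mp this).1
      calc 1 / 2 * |((p - q) / τ).re| < ε₀ / 4 := by linarith
        _ < ε₀ + σ * ((p - q) / τ).im := by linarith
        _ = σ * (σ * ε₀ + ((p - q) / τ).im) := by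
          rw [mul_add, ← mul_assoc, hσσ, one_mul]
  obtain ⟨δ', hδ', h3⟩ := h.exists_foot i t0 (ε := δ / 32) (by positivity)
  have hnhds : ∀ᶠ z in 𝓝 p, ‖z - p‖ < min δ' (δ / 32) := by
    have : Metric.ball p (min δ' (δ / 32)) ∈ 𝓝 p := Metric.ball_mem_nhds _ (by positivity)
    filter_upwards [this] with z hz
    rwa [Metric.mem_ball, dist_eq_norm] at hz
  filter_upwards [hnhds] with z hz hzF
  have hz1 : ‖z - p‖ < δ' := lt_of_lt_of_le hz (min_le_left _ _)
  have hz2 : ‖z - p‖ < δ / 32 := lt_of_lt_of_le hz (min_le_right _ _)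
  obtain ⟨q, hqF, hqp, hre⟩ := h3 z hz1
  have hzq : ‖z - q‖ < δ := by
    have e : z - q = (z - p) - (q - p) := by ring
    rw [e]
    refine lt_of_le_of_lt (norm_sub_le _ _) ?_
    linarith
  have hmain : ∀ σ : ℝ, |σ| = 1 → 0 < σ * ((z - q) / τ).im →
      D z = D (p + σ * (ε₀ * (Complex.I * τ))) := by
    intro σ hσ hpos
    refine hconst q hqF (by linarith) σ hσ z ⟨hzq, ?_⟩ _ (hcone q hqp σ hσ)
    rw [hre, abs_zero, mul_zero]
    exact hpos
  rcases lt_trichotomy ((z - q) / τ).im 0 with him | him | him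
  · right
    rw [hmain (-1) (by simp) (by linarith)]
    refine hval (-1) (by simp) cm ?_
    filter_upwards [hm] with ε hε
    rw [← hε]
    congr 1
    push_cast
    ring
  · exfalso
    have h0 : (z - q) / τ = 0 := Complex.ext hre him
    have h1 : z - q = 0 := by
      rcases div_eq_zero_iff.mp h0 with h | h
      · exact h
      · exact absurd h hτ0
    rw [sub_eq_zero] at h1
    rw [h1] at hzF
    exact hzF hqF
  · left
    rw [hmain 1 (by simp) (by linarith)]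
    refine hval 1 (by simp) cp ?_
    filter_upwards [hp] with ε hε
    rw [← hε]
    congr 1
    push_cast
    ring

end Region

end Pool.Agent.MP9dd505
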