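import Mathlib
import Pool.Agent.Lib.MP_9dd505_an.Local

set_option autoImplicit false

namespace Pool.Agent.MP9dd505

open Set Filter Topology MeasureTheory intervalIntegral
open scoped Interval

variable {M : Set ℂ} {m : ℕ} {γ : Fin m → ℝ → ℂ}

lemma LC_indicator (M : Set ℂ) [DecidablePred (· ∈ M)] (c : ℂ) :
    LC (frontier M) (fun z => if z ∈ M then c else 0) := by
  intro z hz
  by_cases hM : z ∈ M
  · have h1 : z ∈ interior M := by
      by_contra h
      exact hz ⟨subset_closure hM, h⟩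
    filter_upwards [isOpen_interior.mem_nhds h1] with z' hz'
    rw [if_pos hM, if_pos (interior_subset hz')]
  · have h1 : z ∉ closure M := fun h => hz ⟨h, fun h' => hM (interior_subset h')⟩
    filter_upwards [isClosed_closure.isOpen_compl.mem_nhds h1] with z' hz'
    rw [if_neg hM, if_neg fun h => hz' (subset_closure h)]

lemma cint_integrable {g φ : ℝ → ℂ} (hg : Continuous g) (hφ : Continuous φ) {a b : ℝ} {z : ℂ}
    (hz : ∀ t ∈ uIcc a b, g t ≠ z) :
    IntervalIntegrable (fun t => φ t / (g t - z)) volume a b := by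
  refine ContinuousOn.intervalIntegrable ?_
  exact ContinuousOn.div hφ.continuousOn (hg.sub continuous_const).continuousOn
    fun t ht => sub_ne_zero.mpr (hz t ht)

namespace Region

lemma cone_const (h : Region M γ) {D : ℂ → ℂ} (hD : LC (frontier M) D) (i : Fin m) (t0 : ℝ)
    {ω : ℂ} (hω : 0 < ω.im) :
    (∃ c : ℂ, (∀ᶠ ε : ℝ in 𝓝[>] 0, D (γ i t0 + ε * (ω * deriv (γ i) t0)) = c) ∧
      (∀ᶠ ε : ℝ in 𝓝[>] 0, D (γ i t0 + ε * (Complex.I * deriv (γ i) t0)) = c)) ∧
    (∃ c : ℂ, (∀ᶠ ε : ℝ in 𝓝[>] 0, D (γ i t0 - ε * (ω * deriv (γ i) t0)) = c) ∧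
      (∀ᶠ ε : ℝ in 𝓝[>] 0, D (γ i t0 - ε * (Complex.I * deriv (γ i) t0)) = c)) := by
  set η : ℝ := ω.im / (2 * (|ω.re| + 1)) with hη
  have hη0 : 0 < η := by positivity
  have hηω : η * |ω.re| < ω.im := by
    rw [hη, div_mul_eq_mul_div, div_lt_iff₀ (by positivity)]
    nlinarith [abs_nonneg ω.re]
  obtain ⟨δ, hδ, h1⟩ := h.cone_disj i t0 hη0
  have hτ0 := h.reg i t0
  have hτ : 0 < ‖deriv (γ i) t0‖ := norm_pos_iff.mpr hτ0
  set τ := deriv (γ i) t0
  set p := γ i t0
  have hpF : p ∈ frontier M := h.mem_front i t0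
  -- membership in the cones
  have hmem : ∀ ν : ℂ, η * |ν.re| < ν.im → ∀ σ : ℝ, |σ| = 1 → ∀ ε : ℝ, 0 < ε →
      ε * (‖ν‖ * ‖τ‖) < δ → p + σ * (ε * (ν * τ)) ∈ cone τ η δ σ p := by
    intro ν hν σ hσ ε hε hεδ
    have e : p + σ * (ε * (ν * τ)) - p = ((σ * ε : ℝ) : ℂ) * ν * τ := by
      push_cast
      ring
    refine ⟨?_, ?_⟩
    · rw [e, norm_mul, norm_mul, Complex.norm_real, Real.norm_eq_abs, abs_mul, hσ,
        abs_of_pos hε]
      linarith
    · rw [e, mul_div_assoc, div_self hτ0, mul_one]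
      have e1 : (((σ * ε : ℝ) : ℂ) * ν).re = σ * ε * ν.re := by simp
      have e2 : (((σ * ε : ℝ) : ℂ) * ν).im = σ * ε * ν.im := by simp
      rw [e1, e2, abs_mul, abs_mul, hσ, abs_of_pos hε, one_mul]
      have hσσ : σ * σ = 1 := by
        rw [← abs_mul_abs_self, hσ, one_mul]
      calc η * (ε * |ν.re|) = ε * (η * |ν.re|) := by ring
        _ < ε * ν.im := mul_lt_mul_of_pos_left hν hε
        _ = σ * (σ * ε * ν.im) := by
          rw [← mul_assoc, ← mul_assoc, hσσ, one_mul]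
  have hconst : ∀ σ : ℝ, |σ| = 1 →
      ∀ z ∈ cone τ η δ σ p, ∀ w ∈ cone τ η δ σ p, D z = D w := by
    intro σ hσ z hz w hw
    exact hD.const_on (cone_convex hη0.le p).isPreconnected
      (fun z hz => h1 p hpF (by simpa using hδ) σ hσ z hz) hz hw
  have hev : ∀ ν : ℂ, η * |ν.re| < ν.im → ∀ σ : ℝ, |σ| = 1 →
      ∀ᶠ ε : ℝ in 𝓝[>] 0, p + σ * (ε * (ν * τ)) ∈ cone τ η δ σ p := by
    intro ν hν σ hσ
    have hν0 : 0 < ‖ν‖ := by
      rw [norm_pos_iff]
      rintro rfl
      simp at hν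
    have h2 : Ioo (0 : ℝ) (δ / (‖ν‖ * ‖τ‖)) ∈ 𝓝[>] (0 : ℝ) := Ioo_mem_nhdsGT (by positivity)
    filter_upwards [h2] with ε hε
    refine hmem ν hν σ hσ ε hε.1 ?_
    have := hε.2
    rwa [lt_div_iff₀ (by positivity)] at this
  have hI : η * |Complex.I.re| < Complex.I.im := by simp
  have hmain : ∀ σ : ℝ, |σ| = 1 →
      (∃ c : ℂ, (∀ᶠ ε : ℝ in 𝓝[>] 0, D (p + σ * (ε * (ω * τ))) = c) ∧
      (∀ᶠ ε : ℝ in 𝓝[>] 0, D (p + σ * (ε * (Complex.I * τ))) = c)) := by
    intro σ hσ
    obtain ⟨ε₁, hε₁⟩ := (hev Complex.I hI σ hσ).exists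
    refine ⟨D (p + σ * (ε₁ * (Complex.I * τ))), ?_, ?_⟩
    · filter_upwards [hev ω hηω σ hσ] with ε hε
      exact hconst σ hσ _ hε _ hε₁
    · filter_upwards [hev Complex.I hI σ hσ] with ε hε
      exact hconst σ hσ _ hε _ hε₁
  refine ⟨?_, ?_⟩
  · have := hmain 1 (by simp)
    simpa using this
  · obtain ⟨c, hc1, hc2⟩ := hmain (-1) (by simp)
    refine ⟨c, ?_, ?_⟩
    · filter_upwards [hc1] with ε hε
      rw [← hε]
      congr 1
      push_cast
      ring
    · filter_upwards [hc2] with ε hε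
      rw [← hε]
      congr 1
      push_cast
      ring

lemma side (h : Region M γ) (i : Fin m) (t0 : ℝ) :
    (∀ᶠ ε : ℝ in 𝓝[>] 0, γ i t0 + ε * (Complex.I * deriv (γ i) t0) ∈ M) ∧
    (∀ᶠ ε : ℝ in 𝓝[>] 0, γ i t0 - ε * (Complex.I * deriv (γ i) t0) ∉ M) := by
  classical
  obtain ⟨ω, hω, hleft⟩ := h.left i t0
  obtain ⟨⟨c, hc1, hc2⟩, ⟨c', hc1', hc2'⟩⟩ := h.cone_const (LC_indicator M 1) i t0 hω
  obtain ⟨ε, ⟨hε1, hε2⟩, hε3, hε4⟩ := (hleft.and (hc1.and hc1')).exists
  rw [if_pos (interior_subset hε1)] at hε3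
  rw [if_neg hε2] at hε4
  refine ⟨?_, ?_⟩
  · filter_upwards [hc2] with ε' hε'
    by_contra hn
    rw [if_neg hn, ← hε3] at hε'
    exact zero_ne_one hε'
  · filter_upwards [hc2'] with ε' hε' hn
    rw [if_pos hn, ← hε4] at hε'
    exact one_ne_zero hε'

lemma deriv_per (h : Region M γ) (i : Fin m) : Function.Periodic (deriv (γ i)) 1 := by
  intro t
  have h1 : (fun x => γ i (x + 1)) = γ i := funext (h.per i)
  calc deriv (γ i) (t + 1) = deriv (fun x => γ i (x + 1)) t := (deriv_comp_add_const (γ i) 1 t).symm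
    _ = deriv (γ i) t := by rw [h1]

lemma wind_jump (h : Region M γ) (i : Fin m) (t0 : ℝ) :
    Tendsto (fun ε : ℝ => wind γ (γ i t0 + ε * (Complex.I * deriv (γ i) t0))
      - wind γ (γ i t0 - ε * (Complex.I * deriv (γ i) t0))) (𝓝[>] 0)
      (𝓝 (2 * Real.pi * Complex.I)) := by
  obtain ⟨ρ, hρ, h1⟩ := h.strict_est i t0 (η := 1 / 2) (by norm_num)
  have hτ0 := h.reg i t0
  have hτ : 0 < ‖deriv (γ i) t0‖ := norm_pos_iff.mpr hτ0
  have hcg := h.cont i
  have hcd := h.contDeriv i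
  set τ := deriv (γ i) t0
  set p := γ i t0
  set r : ℝ := min (ρ / 2) (1 / 4) with hr
  have hr0 : 0 < r := by positivity
  have hr4 : r ≤ 1 / 4 := min_le_right _ _
  have hrρ : r < ρ := lt_of_le_of_lt (min_le_left _ _) (by linarith)
  -- estimates on the middle part
  have h2 : ∀ s, |s - t0| ≤ r → ‖(γ i s - p) / τ - ((s - t0 : ℝ) : ℂ)‖ ≤ 1 / 2 * |s - t0| := by
    intro s hs
    exact h1 s t0 (by linarith) (by simpa using hρ)
  have h2re : ∀ s, |s - t0| ≤ r → |((γ i s - p) / τ).re - (s - t0)| ≤ 1 / 2 * |s - t0| := by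
    intro s hs
    have : ((γ i s - p) / τ - ((s - t0 : ℝ) : ℂ)).re = ((γ i s - p) / τ).re - (s - t0) := by
      simp
    rw [← this]
    exact (Complex.abs_re_le_norm _).trans (h2 s hs)
  -- tendsto of the base points
  have htp : Tendsto (fun ε : ℝ => p + ε * (Complex.I * τ)) (𝓝[>] 0) (𝓝 p) := by
    have : Tendsto (fun ε : ℝ => p + ε * (Complex.I * τ)) (𝓝 0) (𝓝 (p + (0 : ℝ) * (Complex.I * τ))) := by
      refine Continuous.tendsto ?_ 0
      exact continuous_const.add (Complex.continuous_ofReal.mul continuous_const)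
    simp only [Complex.ofReal_zero, zero_mul, add_zero] at this
    exact this.mono_left nhdsWithin_le_nhds
  have htm : Tendsto (fun ε : ℝ => p - ε * (Complex.I * τ)) (𝓝[>] 0) (𝓝 p) := by
    have : Tendsto (fun ε : ℝ => p - ε * (Complex.I * τ)) (𝓝 0) (𝓝 (p - (0 : ℝ) * (Complex.I * τ))) := by
      refine Continuous.tendsto ?_ 0
      exact continuous_const.sub (Complex.continuous_ofReal.mul continuous_const)
    simp only [Complex.ofReal_zero, zero_mul, sub_zero] at this
    exact this.mono_left nhdsWithin_le_nhds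
  have hcontdiff : ∀ f : ℂ → ℂ, ContinuousAt f p →
      Tendsto (fun ε : ℝ => f (p + ε * (Complex.I * τ)) - f (p - ε * (Complex.I * τ)))
        (𝓝[>] 0) (𝓝 0) := by
    intro f hf
    have := (hf.tendsto.comp htp).sub (hf.tendsto.comp htm)
    rw [sub_self] at this
    exact this
  -- the other curves
  have hother : ∀ j, j ≠ i → ContinuousAt (cint (γ j) (deriv (γ j)) 0 1) p := by
    intro j hj
    refine (cint_differentiableAt (h.cont j) (h.contDeriv j) fun t _ ht => ?_).continuousAt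
    exact hj (h.inj j i t t0 ht).1
  -- the outer parts
  have hne_out : ∀ t, |t - t0| ≤ 1 / 2 → r ≤ |t - t0| → γ i t ≠ p := by
    intro t ht1 ht2 ht
    obtain ⟨_, k, hk⟩ := h.inj i i t t0 ht
    have e : t - t0 = k := by linarith
    rw [e] at ht1 ht2
    have hk0 : k = 0 := by
      have h3 := abs_le.mp ht1
      have h4 : (k : ℝ) < 1 := by linarith [h3.2]
      have h5 : (-1 : ℝ) < k := by linarith [h3.1]
      have h4' : k < 1 := by exact_mod_cast h4
      have h5' : -1 < k := by exact_mod_cast h5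
      omega
    rw [hk0] at ht2
    simp at ht2
    linarith
  have hout1 : ∀ t ∈ uIcc (t0 - 1 / 2) (t0 - r), γ i t ≠ p := by
    intro t ht
    rw [uIcc_of_le (by linarith)] at ht
    have : |t - t0| = -(t - t0) := abs_of_nonpos (by linarith [ht.2])
    refine hne_out t ?_ ?_
    · rw [this]; linarith [ht.1]
    · rw [this]; linarith [ht.2]
  have hout2 : ∀ t ∈ uIcc (t0 + r) (t0 + 1 / 2), γ i t ≠ p := by
    intro t ht
    rw [uIcc_of_le (by linarith)] at ht
    have : |t - t0| = t - t0 := abs_of_nonneg (by linarith [ht.1])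
    refine hne_out t ?_ ?_
    · rw [this]; linarith [ht.2]
    · rw [this]; linarith [ht.1]
  have hO1 : ContinuousAt (cint (γ i) (deriv (γ i)) (t0 - 1 / 2) (t0 - r)) p :=
    (cint_differentiableAt hcg hcd hout1).continuousAt
  have hO2 : ContinuousAt (cint (γ i) (deriv (γ i)) (t0 + r) (t0 + 1 / 2)) p :=
    (cint_differentiableAt hcg hcd hout2).continuousAt
  have hnear : ∀ a b, (∀ t ∈ uIcc a b, γ i t ≠ p) → ∀ᶠ z in 𝓝 p, ∀ t ∈ uIcc a b, γ i t ≠ z := by
    intro a b hab
    have hK : IsCompact (γ i '' uIcc a b) := isCompact_uIcc.image hcg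
    have hpK : p ∉ γ i '' uIcc a b := by
      rintro ⟨t, ht, e⟩
      exact hab t ht e
    filter_upwards [hK.isClosed.isOpen_compl.mem_nhds hpK] with z hz t ht e
    exact hz ⟨t, ht, e⟩
  -- decomposition
  have hdecomp : ∀ z, (∀ t ∈ uIcc (t0 - 1 / 2) (t0 - r), γ i t ≠ z) →
      (∀ t ∈ uIcc (t0 + r) (t0 + 1 / 2), γ i t ≠ z) →
      (∀ t ∈ uIcc (t0 - r) (t0 + r), γ i t ≠ z) →
      cint (γ i) (deriv (γ i)) 0 1 z = cint (γ i) (deriv (γ i)) (t0 - 1 / 2) (t0 - r) z
        + (∫ t in (t0 - r)..(t0 + r), deriv (γ i) t / (γ i t - z))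
        + cint (γ i) (deriv (γ i)) (t0 + r) (t0 + 1 / 2) z := by
    intro z hz1 hz2 hz3
    have hperF : Function.Periodic (fun t => deriv (γ i) t / (γ i t - z)) 1 := by
      intro t
      simp only
      rw [h.deriv_per i t, h.per i t]
    have e1 : cint (γ i) (deriv (γ i)) 0 1 z
        = ∫ t in (t0 - 1 / 2)..(t0 - 1 / 2 + 1), deriv (γ i) t / (γ i t - z) := by
      have := hperF.intervalIntegral_add_eq 0 (t0 - 1 / 2)
      rw [zero_add] at this
      exact this
    have e2 : t0 - 1 / 2 + 1 = t0 + 1 / 2 := by ring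
    rw [e1, e2]
    have i1 := cint_integrable hcg hcd hz1
    have i2 := cint_integrable hcg hcd hz2
    have i3 := cint_integrable hcg hcd hz3
    unfold cint
    rw [intervalIntegral.integral_add_adjacent_intervals i1 i3,
      intervalIntegral.integral_add_adjacent_intervals (i1.trans i3) i2]
  -- the slit plane conditions
  have hslit : ∀ (σ : ℝ), (σ = 1 ∨ σ = -1) → ∀ ε : ℝ, 0 < ε → ∀ s, |s - t0| ≤ r →
      (σ * Complex.I / τ) * (γ i s - (p + σ * (ε * (Complex.I * τ)))) ∈ Complex.slitPlane := by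
    intro σ hσ ε hε s hs
    have hσσ : (σ : ℂ) * σ = 1 := by
      rcases hσ with rfl | rfl <;> simp
    have e : (σ * Complex.I / τ) * (γ i s - (p + σ * (ε * (Complex.I * τ))))
        = σ * (Complex.I * ((γ i s - p) / τ)) + ε := by
      field_simp
      have hI : Complex.I ^ 2 = -1 := Complex.I_sq
      linear_combination (-(τ * ε * Complex.I ^ 2)) * hσσ - τ * ε * hI
    rw [e, Complex.mem_slitPlane_iff]
    by_cases hs0 : s = t0
    · left
      rw [hs0]
      simp [hε, p]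
    · right
      have h3 := h2re s hs
      have h4 : ((γ i s - p) / τ).re ≠ 0 := by
        intro h0
        rw [h0, zero_sub, abs_neg] at h3
        have : 0 < |s - t0| := abs_pos.mpr (sub_ne_zero.mpr hs0)
        linarith
      have e2 : (σ * (Complex.I * ((γ i s - p) / τ)) + (ε : ℂ)).im = σ * ((γ i s - p) / τ).re := by
        simp
      rw [e2]
      refine mul_ne_zero ?_ h4
      rcases hσ with rfl | rfl <;> norm_num
  have hmid : ∀ (σ : ℝ), (σ = 1 ∨ σ = -1) → ∀ ε : ℝ, 0 < ε →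
      ∫ t in (t0 - r)..(t0 + r), deriv (γ i) t / (γ i t - (p + σ * (ε * (Complex.I * τ))))
        = Complex.log ((σ * Complex.I / τ) * (γ i (t0 + r) - (p + σ * (ε * (Complex.I * τ)))))
        - Complex.log ((σ * Complex.I / τ) * (γ i (t0 - r) - (p + σ * (ε * (Complex.I * τ))))) := by
    intro σ hσ ε hε
    refine log_integral (h.c1 i) fun t ht => ?_
    refine hslit σ hσ ε hε t ?_
    rw [uIcc_of_le (by linarith)] at ht
    exact abs_le.mpr ⟨by linarith [ht.1], by linarith [ht.2]⟩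
  -- limits of the logarithms
  have hb : ∀ s, |s - t0| = r → ((γ i s - p) / τ).re ≠ 0 := by
    intro s hs h0
    have h3 := h2re s hs.le
    rw [h0, zero_sub, abs_neg, hs] at h3
    linarith
  have hlim : ∀ (σ : ℝ), (σ = 1 ∨ σ = -1) → ∀ s, |s - t0| = r →
      Tendsto (fun ε : ℝ => Complex.log ((σ * Complex.I / τ) *
        (γ i s - (p + σ * (ε * (Complex.I * τ)))))) (𝓝[>] 0)
        (𝓝 (Complex.log (σ * (Complex.I * ((γ i s - p) / τ))))) := by
    intro σ hσ s hs
    have e : (σ * (Complex.I * ((γ i s - p) / τ)) : ℂ)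
        = (σ * Complex.I / τ) * (γ i s - (p + σ * ((0 : ℝ) * (Complex.I * τ)))) := by
      rw [Complex.ofReal_zero, zero_mul, mul_zero, add_zero]
      ring
    have hmem : (σ * (Complex.I * ((γ i s - p) / τ)) : ℂ) ∈ Complex.slitPlane := by
      rw [Complex.mem_slitPlane_iff]
      right
      have e2 : (σ * (Complex.I * ((γ i s - p) / τ)) : ℂ).im = σ * ((γ i s - p) / τ).re := by
        simp
      rw [e2]
      refine mul_ne_zero ?_ (hb s hs)
      rcases hσ with rfl | rfl <;> norm_num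
    have hc : ContinuousAt Complex.log (σ * (Complex.I * ((γ i s - p) / τ)) : ℂ) :=
      continuousAt_clog hmem
    refine hc.tendsto.comp ?_
    rw [e]
    have hcont : Continuous fun ε : ℝ =>
        (σ * Complex.I / τ) * (γ i s - (p + σ * (ε * (Complex.I * τ)))) :=
      continuous_const.mul (continuous_const.sub (continuous_const.add
        (continuous_const.mul (Complex.continuous_ofReal.mul continuous_const))))
    exact (hcont.tendsto 0).mono_left nhdsWithin_le_nhds
  have hsp : |t0 + r - t0| = r := by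
    have : t0 + r - t0 = r := by ring
    rw [this, abs_of_pos hr0]
  have hsm : |t0 - r - t0| = r := by
    have : t0 - r - t0 = -r := by ring
    rw [this, abs_neg, abs_of_pos hr0]
  have hbp : 0 < ((γ i (t0 + r) - p) / τ).re := by
    have h4 := abs_le.mp (h2re (t0 + r) hsp.le)
    rw [hsp] at h4
    linarith [h4.1]
  have hbm : ((γ i (t0 - r) - p) / τ).re < 0 := by
    have h4 := abs_le.mp (h2re (t0 - r) hsm.le)
    rw [hsm] at h4
    linarith [h4.2]
  have hL1 := log_I_mul_of_re_pos hbp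
  have hL2 := log_I_mul_of_re_neg hbm
  have hmidlim : Tendsto (fun ε : ℝ =>
      (Complex.log (((1 : ℝ) * Complex.I / τ) * (γ i (t0 + r) - (p + (1 : ℝ) * (ε * (Complex.I * τ)))))
      - Complex.log (((1 : ℝ) * Complex.I / τ) * (γ i (t0 - r) - (p + (1 : ℝ) * (ε * (Complex.I * τ))))))
      - (Complex.log (((-1 : ℝ) * Complex.I / τ) * (γ i (t0 + r) - (p + (-1 : ℝ) * (ε * (Complex.I * τ)))))
      - Complex.log (((-1 : ℝ) * Complex.I / τ) * (γ i (t0 - r) - (p + (-1 : ℝ) * (ε * (Complex.I * τ)))))))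
      (𝓝[>] 0) (𝓝 (2 * Real.pi * Complex.I)) := by
    have h3 := ((hlim 1 (Or.inl rfl) _ hsp).sub (hlim 1 (Or.inl rfl) _ hsm)).sub
      ((hlim (-1) (Or.inr rfl) _ hsp).sub (hlim (-1) (Or.inr rfl) _ hsm))
    refine h3.congr' (Eventually.of_forall fun _ => rfl) |>.trans_eq ?_
    congr 1
    push_cast
    rw [one_mul, one_mul, neg_one_mul, neg_one_mul]
    linear_combination hL1 - hL2
  have hi : Tendsto (fun ε : ℝ => cint (γ i) (deriv (γ i)) 0 1 (p + ε * (Complex.I * τ))
      - cint (γ i) (deriv (γ i)) 0 1 (p - ε * (Complex.I * τ))) (𝓝[>] 0)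
      (𝓝 (2 * Real.pi * Complex.I)) := by
    have hsum := ((hcontdiff _ hO1).add (hcontdiff _ hO2)).add hmidlim
    rw [add_zero, zero_add] at hsum
    refine hsum.congr' ?_
    have hpos : ∀ᶠ ε : ℝ in 𝓝[>] 0, 0 < ε := self_mem_nhdsWithin
    filter_upwards [htp.eventually (hnear _ _ hout1), htp.eventually (hnear _ _ hout2),
      htm.eventually (hnear _ _ hout1), htm.eventually (hnear _ _ hout2), hpos]
      with ε a1 a2 a3 a4 hε
    have m1 := hmid 1 (Or.inl rfl) ε hε
    have m2 := hmid (-1) (Or.inr rfl) ε hε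
    have n1 : ∀ t ∈ uIcc (t0 - r) (t0 + r), γ i t ≠ p + ε * (Complex.I * τ) := by
      intro t ht e
      rw [uIcc_of_le (by linarith)] at ht
      have := Complex.slitPlane_ne_zero (hslit 1 (Or.inl rfl) ε hε t
        (abs_le.mpr ⟨by linarith [ht.1], by linarith [ht.2]⟩))
      apply this
      rw [e]
      push_cast
      ring
    have n2 : ∀ t ∈ uIcc (t0 - r) (t0 + r), γ i t ≠ p - ε * (Complex.I * τ) := by
      intro t ht e
      rw [uIcc_of_le (by linarith)] at ht
      have := Complex.slitPlane_ne_zero (hslit (-1) (Or.inr rfl) ε hε t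
        (abs_le.mpr ⟨by linarith [ht.1], by linarith [ht.2]⟩))
      apply this
      rw [e]
      push_cast
      ring
    rw [hdecomp _ a1 a2 n1, hdecomp _ a3 a4 n2, ← m1, ← m2]
    have e1 : p + ((1 : ℝ) : ℂ) * (ε * (Complex.I * τ)) = p + ε * (Complex.I * τ) := by
      push_cast
      ring
    have e2 : p + ((-1 : ℝ) : ℂ) * (ε * (Complex.I * τ)) = p - ε * (Complex.I * τ) := by
      push_cast
      ring
    rw [e1, e2]
    ring
  have hall : ∀ j ∈ Finset.univ, Tendsto (fun ε : ℝ =>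
      cint (γ j) (deriv (γ j)) 0 1 (p + ε * (Complex.I * τ))
      - cint (γ j) (deriv (γ j)) 0 1 (p - ε * (Complex.I * τ))) (𝓝[>] 0)
      (𝓝 (if j = i then 2 * Real.pi * Complex.I else 0)) := by
    intro j _
    by_cases hj : j = i
    · subst hj
      rw [if_pos rfl]
      exact hi
    · rw [if_neg hj]
      exact hcontdiff _ (hother j hj)
  have hfin := tendsto_finsetSum Finset.univ hall
  rw [Finset.sum_ite_eq' Finset.univ i, if_pos (Finset.mem_univ i)] at hfin
  refine hfin.congr' (Eventually.of_forall fun ε => ?_)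
  simp only [wind]
  rw [← Finset.sum_sub_distrib]

end Region

end Pool.Agent.MP9dd505
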