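import Mathlib
import Pool.Agent.Lib.MP_9dd505_an.Jump

set_option autoImplicit false

namespace Pool.Agent.MP9dd505

open Set Filter Topology MeasureTheory intervalIntegral
open scoped Interval

variable {M : Set ℂ} {m : ℕ} {γ : Fin m → ℝ → ℂ}

lemma cint_tendsto_zero {g φ : ℝ → ℂ} (hg : Continuous g) (hφ : Continuous φ) (a b : ℝ) :
    Tendsto (cint g φ a b) (cocompact ℂ) (𝓝 0) := by
  obtain ⟨R, hR⟩ : ∃ R : ℝ, ∀ t ∈ uIcc a b, ‖g t‖ ≤ R :=
    isCompact_uIcc.exists_bound_of_continuousOn hg.continuousOn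
  obtain ⟨C, hC⟩ : ∃ C : ℝ, ∀ t ∈ uIcc a b, ‖φ t‖ ≤ C :=
    isCompact_uIcc.exists_bound_of_continuousOn hφ.continuousOn
  have hC0 : 0 ≤ C := (norm_nonneg _).trans (hC a left_mem_uIcc)
  have h1 : Tendsto (fun z : ℂ => ‖z‖ - R) (cocompact ℂ) atTop :=
    tendsto_atTop_add_const_right _ _ tendsto_norm_cocompact_atTop
  have h2 : Tendsto (fun z : ℂ => C / (‖z‖ - R) * |b - a|) (cocompact ℂ) (𝓝 0) := by
    have := (h1.const_div_atTop C).mul_const |b - a|
    rwa [zero_mul] at this
  refine squeeze_zero_norm' ?_ h2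
  filter_upwards [h1.eventually_gt_atTop 0] with z hz
  refine intervalIntegral.norm_integral_le_of_norm_le_const fun t ht => ?_
  have ht' : t ∈ uIcc a b := uIoc_subset_uIcc ht
  rw [norm_div]
  have h3 : ‖z‖ - R ≤ ‖g t - z‖ := by
    have := norm_sub_norm_le z (g t)
    rw [norm_sub_rev] at this
    linarith [hR t ht']
  exact div_le_div₀ hC0 (hC t ht') hz h3

namespace Region

lemma front_freq (h : Region M γ) (y : ℂ) : ∃ᶠ z in 𝓝 y, z ∉ frontier M := by
  intro hn
  simp only [not_not] at hn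
  have h1 : y ∈ interior (frontier M) := mem_interior_iff_mem_nhds.mpr hn
  rw [interior_frontier h.compact.isClosed] at h1
  exact h1

theorem wind_eq (h : Region M γ) [DecidablePred (· ∈ M)] {z : ℂ} (hz : z ∉ frontier M) :
    wind γ z = if z ∈ M then 2 * Real.pi * Complex.I else 0 := by
  set D : ℂ → ℂ := fun z => wind γ z - (if z ∈ M then 2 * Real.pi * Complex.I else 0) with hD
  have hLC : LC (frontier M) D := by
    intro w hw
    filter_upwards [h.wind_locally_const hw, LC_indicator M (2 * Real.pi * Complex.I) w hw]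
      with w' h1 h2
    simp only [hD]
    rw [h1, h2]
  have hloc : ∀ x : ℂ, ∃ c : ℂ, ∀ᶠ w in 𝓝 x, w ∉ frontier M → D w = c := by
    intro x
    by_cases hx : x ∈ frontier M
    · have hx' := hx
      rw [h.front] at hx'
      obtain ⟨i, t0, rfl⟩ := mem_iUnion.mp hx'
      obtain ⟨⟨cp, hp, _⟩, ⟨cm, hm, _⟩⟩ := h.cone_const hLC i t0 (ω := Complex.I) (by simp)
      have hjump := h.wind_jump i t0
      obtain ⟨s1, s2⟩ := h.side i t0
      have hDj : Tendsto (fun ε : ℝ => D (γ i t0 + ε * (Complex.I * deriv (γ i) t0))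
          - D (γ i t0 - ε * (Complex.I * deriv (γ i) t0))) (𝓝[>] 0) (𝓝 0) := by
        have h3 := hjump.sub_const (2 * Real.pi * Complex.I)
        rw [sub_self] at h3
        refine h3.congr' ?_
        filter_upwards [s1, s2] with ε e1 e2
        simp only [hD]
        rw [if_pos e1, if_neg e2]
        ring
      have hDc : Tendsto (fun ε : ℝ => D (γ i t0 + ε * (Complex.I * deriv (γ i) t0))
          - D (γ i t0 - ε * (Complex.I * deriv (γ i) t0))) (𝓝[>] 0) (𝓝 (cp - cm)) := by
        refine tendsto_const_nhds.congr' ?_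
        filter_upwards [hp, hm] with ε e1 e2
        rw [e1, e2]
      have heq : cp = cm := sub_eq_zero.mp (tendsto_nhds_unique hDc hDj)
      refine ⟨cp, ?_⟩
      filter_upwards [h.local_two hLC i t0 hp hm] with w hw hwF
      rcases hw hwF with h4 | h4
      · exact h4
      · rw [h4, heq]
    · exact ⟨D x, (hLC x hx).mono fun w hw _ => hw⟩
  have hglob : ∀ x y : ℂ, ∃ c : ℂ, (∀ᶠ w in 𝓝 x, w ∉ frontier M → D w = c) ∧
      (∀ᶠ w in 𝓝 y, w ∉ frontier M → D w = c) := by
    intro x y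
    refine PreconnectedSpace.induction₂' (fun x y => ∃ c : ℂ,
      (∀ᶠ w in 𝓝 x, w ∉ frontier M → D w = c) ∧ (∀ᶠ w in 𝓝 y, w ∉ frontier M → D w = c))
      ?_ ?_ x y
    · intro x
      obtain ⟨c, hc⟩ := hloc x
      filter_upwards [eventually_eventually_nhds.mpr hc] with y hy
      exact ⟨⟨c, hc, hy⟩, ⟨c, hy, hc⟩⟩
    · refine ⟨fun x y z hxy hyz => ?_⟩
      obtain ⟨c, hc1, hc2⟩ := hxy
      obtain ⟨c', hc1', hc2'⟩ := hyz
      obtain ⟨w, hw1, hw2, hw3⟩ := ((h.front_freq y).and_eventually (hc2.and hc1')).exists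
      have : c = c' := by rw [← hw2 hw1, ← hw3 hw1]
      exact ⟨c, hc1, this ▸ hc2'⟩
  have hconst : ∀ w, w ∉ frontier M → D w = D z := by
    intro w hw
    obtain ⟨c, h1, h2⟩ := hglob w z
    rw [h1.self_of_nhds hw, h2.self_of_nhds hz]
  have hlim : Tendsto D (cocompact ℂ) (𝓝 0) := by
    have h1 : Tendsto (wind γ) (cocompact ℂ) (𝓝 0) := by
      have h2 : ∀ j ∈ Finset.univ, Tendsto (fun z => cint (γ j) (deriv (γ j)) 0 1 z)
          (cocompact ℂ) (𝓝 0) := fun j _ => cint_tendsto_zero (h.cont j) (h.contDeriv j) 0 1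
      have h3 := tendsto_finsetSum Finset.univ h2
      rw [Finset.sum_const_zero] at h3
      exact h3
    refine h1.congr' ?_
    filter_upwards [h.compact.compl_mem_cocompact] with w hw
    simp only [hD]
    rw [if_neg hw, sub_zero]
  have hlim2 : Tendsto D (cocompact ℂ) (𝓝 (D z)) := by
    refine tendsto_const_nhds.congr' ?_
    filter_upwards [h.compact_frontier.compl_mem_cocompact] with w hw
    exact (hconst w hw).symm
  have h0 : D z = 0 := tendsto_nhds_unique hlim2 hlim
  exact sub_eq_zero.mp h0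

end Region

end Pool.Agent.MP9dd505
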