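import Mathlib
import Pool.Agent.Lib.MP_9dd505_an.Wind

set_option autoImplicit false

namespace Pool.Agent.MP9dd505

open Set Filter Topology MeasureTheory intervalIntegral
open scoped Interval

lemma dslope_bound {U K : Set ℂ} (hU : IsOpen U) (hK : IsCompact K) (hKU : K ⊆ U) {F : ℂ → ℂ}
    (hF : DifferentiableOn ℂ F U) : ∃ C : ℝ, ∀ w ∈ K, ∀ z ∈ K, ‖dslope F w z‖ ≤ C := by
  obtain ⟨δ, hδ, hδU⟩ := hK.exists_cthickening_subset_open hU hKU
  have hK' : IsCompact (Metric.cthickening δ K) := hK.cthickening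
  obtain ⟨C1, hC1⟩ : ∃ C : ℝ, ∀ z ∈ Metric.cthickening δ K, ‖deriv F z‖ ≤ C :=
    hK'.exists_bound_of_continuousOn ((hF.deriv hU).continuousOn.mono hδU)
  obtain ⟨C0, hC0⟩ : ∃ C : ℝ, ∀ z ∈ K, ‖F z‖ ≤ C :=
    hK.exists_bound_of_continuousOn (hF.continuousOn.mono hKU)
  refine ⟨max C1 (2 * C0 / δ), fun w hw z hz => ?_⟩
  have hwK : w ∈ Metric.cthickening δ K := Metric.self_subset_cthickening _ hw
  by_cases hzw : z = w
  · rw [hzw, dslope_same]
    exact (hC1 w hwK).trans (le_max_left _ _)
  · rw [dslope_of_ne _ hzw, slope_def_field, norm_div]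
    have hpos : 0 < ‖z - w‖ := norm_pos_iff.mpr (sub_ne_zero.mpr hzw)
    rw [div_le_iff₀ hpos]
    by_cases hd : ‖z - w‖ < δ
    · have hball : Metric.ball w δ ⊆ Metric.cthickening δ K := by
        intro x hx
        refine Metric.mem_cthickening_of_dist_le x w δ K hw ?_
        exact (Metric.mem_ball.mp hx).le
      have h1 := Convex.norm_image_sub_le_of_norm_deriv_le (f := F) (C := C1)
        (s := Metric.ball w δ) (x := w) (y := z)
        (fun x hx => (hF x (hδU (hball hx))).differentiableAt (hU.mem_nhds (hδU (hball hx))))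
        (fun x hx => hC1 x (hball hx)) (convex_ball w δ) (Metric.mem_ball_self hδ)
        (by rwa [Metric.mem_ball, dist_eq_norm])
      exact h1.trans (mul_le_mul_of_nonneg_right (le_max_left _ _) hpos.le)
    · push Not at hd
      have h1 : ‖F z - F w‖ ≤ 2 * C0 := by
        refine (norm_sub_le _ _).trans ?_
        linarith [hC0 z hz, hC0 w hw]
      have hC00 : 0 ≤ C0 := (norm_nonneg _).trans (hC0 z hz)
      calc ‖F z - F w‖ ≤ 2 * C0 := h1
        _ = 2 * C0 / δ * δ := by field_simp
        _ ≤ 2 * C0 / δ * ‖z - w‖ := mul_le_mul_of_nonneg_left hd (by positivity)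
        _ ≤ _ := mul_le_mul_of_nonneg_right (le_max_right _ _) hpos.le

lemma dslope_int_differentiableAt {U : Set ℂ} (hU : IsOpen U) {F : ℂ → ℂ}
    (hF : DifferentiableOn ℂ F U) {g φ : ℝ → ℂ} (hg : Continuous g) (hφ : Continuous φ)
    {a b : ℝ} (hgU : ∀ t, g t ∈ U) {z₁ : ℂ} (hz₁ : z₁ ∈ U) :
    DifferentiableAt ℂ (fun z => ∫ t in a..b, φ t * dslope F (g t) z) z₁ := by
  obtain ⟨R, hR, hRU⟩ := Metric.nhds_basis_closedBall.mem_iff.mp (hU.mem_nhds hz₁)
  set r := R / 2 with hr
  have hr0 : 0 < r := by positivity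
  set K : Set ℂ := g '' uIcc a b ∪ Metric.closedBall z₁ R
  have hK : IsCompact K := (isCompact_uIcc.image hg).union (isCompact_closedBall _ _)
  have hKU : K ⊆ U := by
    rintro x (⟨t, _, rfl⟩ | hx)
    · exact hgU t
    · exact hRU hx
  obtain ⟨C, hC⟩ := dslope_bound hU hK hKU hF
  obtain ⟨C', hC'⟩ : ∃ C : ℝ, ∀ t ∈ uIcc a b, ‖φ t‖ ≤ C :=
    isCompact_uIcc.exists_bound_of_continuousOn hφ.continuousOn
  have hFg : Continuous fun t => F (g t) :=
    hF.continuousOn.comp_continuous hg hgU
  have hCn : 0 ≤ C := (norm_nonneg _).trans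
    (hC z₁ (Or.inr (Metric.mem_closedBall_self hR.le)) z₁ (Or.inr (Metric.mem_closedBall_self hR.le)))
  have hds : ∀ w ∈ U, DifferentiableOn ℂ (dslope F w) U := fun w hw =>
    (Complex.differentiableOn_dslope (hU.mem_nhds hw)).mpr hF
  have hset : ∀ z, MeasurableSet {t | g t = z} := fun z =>
    (isClosed_eq hg continuous_const).measurableSet
  have hmeas : ∀ z : ℂ, Measurable fun t => φ t * dslope F (g t) z := by
    intro z
    refine hφ.measurable.mul ?_
    have e : (fun t => dslope F (g t) z)
        = fun t => if g t = z then deriv F z else (F z - F (g t)) / (z - g t) := by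
      ext t
      by_cases ht : g t = z
      · rw [if_pos ht, ht, dslope_same]
      · rw [if_neg ht, dslope_of_ne _ (Ne.symm ht), slope_def_field]
    rw [e]
    exact Measurable.ite (hset z) measurable_const
      ((hFg.measurable.const_sub _).div (hg.measurable.const_sub _))
  have hderiv : ∀ w ∈ U, w ≠ z₁ → deriv (dslope F w) z₁
      = (deriv F z₁ * (z₁ - w) - (F z₁ - F w)) / (z₁ - w) ^ 2 := by
    intro w _ hw
    have e : dslope F w =ᶠ[𝓝 z₁] fun z => (F z - F w) / (z - w) := by
      filter_upwards [isOpen_ne.mem_nhds (Ne.symm hw)] with z hz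
      rw [dslope_of_ne _ hz, slope_def_field]
    rw [e.deriv_eq]
    have h1 : HasDerivAt F (deriv F z₁) z₁ :=
      ((hF z₁ hz₁).differentiableAt (hU.mem_nhds hz₁)).hasDerivAt
    have h2 := (h1.sub_const (F w)).div ((hasDerivAt_id z₁).sub_const w)
      (sub_ne_zero.mpr (Ne.symm hw))
    have h3 := h2.deriv
    simp only [id, mul_one] at h3
    exact h3
  have hmeas' : Measurable fun t => φ t * deriv (dslope F (g t)) z₁ := by
    refine hφ.measurable.mul ?_
    have e : (fun t => deriv (dslope F (g t)) z₁)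
        = fun t => if g t = z₁ then deriv (dslope F z₁) z₁ else
          (deriv F z₁ * (z₁ - g t) - (F z₁ - F (g t))) / (z₁ - g t) ^ 2 := by
      ext t
      by_cases ht : g t = z₁
      · rw [if_pos ht, ht]
      · rw [if_neg ht, hderiv (g t) (hgU t) ht]
    rw [e]
    exact Measurable.ite (hset z₁) measurable_const
      ((((hg.measurable.const_sub _).const_mul _).sub (hFg.measurable.const_sub _)).div
        ((hg.measurable.const_sub _).pow_const 2))
  have key := intervalIntegral.hasDerivAt_integral_of_dominated_loc_of_deriv_le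
    (μ := volume) (a := a) (b := b) (F := fun z t => φ t * dslope F (g t) z)
    (F' := fun z t => φ t * deriv (dslope F (g t)) z) (x₀ := z₁) (s := Metric.ball z₁ r)
    (bound := fun _ => C' * (C / r)) (Metric.ball_mem_nhds z₁ hr0)
    (Eventually.of_forall fun z => (hmeas z).aestronglyMeasurable) ?_
    hmeas'.aestronglyMeasurable ?_ intervalIntegrable_const ?_
  · exact key.2.differentiableAt
  · rw [intervalIntegrable_iff]
    refine Measure.integrableOn_of_bounded (M := C' * C) ?_ (hmeas z₁).aestronglyMeasurable ?_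
    · rw [uIoc, Real.volume_Ioc]
      exact ENNReal.ofReal_ne_top
    · refine (ae_restrict_iff' measurableSet_uIoc).mpr (Eventually.of_forall fun t ht => ?_)
      have ht' : t ∈ uIcc a b := uIoc_subset_uIcc ht
      rw [norm_mul]
      exact mul_le_mul (hC' t ht') (hC (g t) (Or.inl ⟨t, ht', rfl⟩) z₁
        (Or.inr (Metric.mem_closedBall_self hR.le))) (norm_nonneg _)
        ((norm_nonneg _).trans (hC' t ht'))
  · refine Eventually.of_forall fun t ht z hz => ?_
    have ht' : t ∈ uIcc a b := uIoc_subset_uIcc ht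
    rw [norm_mul]
    have hball : Metric.closedBall z r ⊆ Metric.closedBall z₁ R := by
      refine Metric.closedBall_subset_closedBall' ?_
      have := Metric.mem_ball.mp hz
      linarith
    have hd : DiffContOnCl ℂ (dslope F (g t)) (Metric.ball z r) := by
      refine DifferentiableOn.diffContOnCl ?_
      refine (hds (g t) (hgU t)).mono ?_
      exact (Metric.closure_ball_subset_closedBall.trans hball).trans hRU
    have h2 : ‖deriv (dslope F (g t)) z‖ ≤ C / r :=
      Complex.norm_deriv_le_of_forall_mem_sphere_norm_le hr0 hd fun x hx =>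
        hC (g t) (Or.inl ⟨t, ht', rfl⟩) x (Or.inr (hball (Metric.sphere_subset_closedBall hx)))
    exact mul_le_mul (hC' t ht') h2 (norm_nonneg _) ((norm_nonneg _).trans (hC' t ht'))
  · refine Eventually.of_forall fun t ht z hz => ?_
    have hzU : z ∈ U := hRU (Metric.ball_subset_closedBall
      (Metric.ball_subset_ball (by linarith) hz))
    have h1 : DifferentiableAt ℂ (dslope F (g t)) z :=
      (hds (g t) (hgU t) z hzU).differentiableAt (hU.mem_nhds hzU)
    exact h1.hasDerivAt.const_mul _

end Pool.Agent.MP9dd505
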