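import Mathlib
import Pool.Agent.Lib.MP_9dd505_an.Dixon

set_option autoImplicit false

namespace Pool.Agent.MP9dd505

open Set Filter Topology MeasureTheory intervalIntegral
open scoped Interval

variable {M : Set ℂ} {m : ℕ} {γ : Fin m → ℝ → ℂ}

/-- Cauchy's formula for compact plane regions with `C^1` boundary. -/
theorem Region.cauchy (h : Region M γ) {U : Set ℂ} (hU : IsOpen U) (hMU : M ⊆ U) {F : ℂ → ℂ}
    (hF : DifferentiableOn ℂ F U) {z₀ : ℂ} (hz₀ : z₀ ∈ interior M) :
    ∑ i, ∫ t in (0 : ℝ)..1, deriv (γ i) t * F (γ i t) / (γ i t - z₀)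
      = 2 * Real.pi * Complex.I * F z₀ := by
  classical
  have hfrM : frontier M ⊆ M := h.compact.isClosed.frontier_subset
  have hγU : ∀ i t, γ i t ∈ U := fun i t => hMU (hfrM (h.mem_front i t))
  have hFγ : ∀ i, Continuous fun t => F (γ i t) := fun i =>
    hF.continuousOn.comp_continuous (h.cont i) (hγU i)
  have hφ : ∀ i, Continuous fun t => deriv (γ i) t * F (γ i t) := fun i =>
    (h.contDeriv i).mul (hFγ i)
  set h1 : ℂ → ℂ := fun z => ∑ i, ∫ t in (0 : ℝ)..1, deriv (γ i) t * dslope F (γ i t) z with hh1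
  set h2 : ℂ → ℂ := fun z => ∑ i, cint (γ i) (fun t => deriv (γ i) t * F (γ i t)) 0 1 z with hh2
  have h1d : ∀ z ∈ U, DifferentiableAt ℂ h1 z := by
    intro z hz
    have := DifferentiableAt.fun_sum (u := Finset.univ) (x := z) (𝕜 := ℂ)
      (A := fun i z => ∫ t in (0 : ℝ)..1, deriv (γ i) t * dslope F (γ i t) z) fun i _ =>
      dslope_int_differentiableAt hU hF (h.cont i) (h.contDeriv i) (a := 0) (b := 1) (hγU i) hz
    exact this
  have h2d : ∀ z, z ∉ frontier M → DifferentiableAt ℂ h2 z := by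
    intro z hz
    have := DifferentiableAt.fun_sum (u := Finset.univ) (x := z) (𝕜 := ℂ)
      (A := fun i z => cint (γ i) (fun t => deriv (γ i) t * F (γ i t)) 0 1 z) fun i _ =>
      cint_differentiableAt (h.cont i) (hφ i) (a := 0) (b := 1) fun t _ e =>
        hz (e ▸ h.mem_front i t)
    exact this
  have hrel : ∀ z ∈ U, z ∉ frontier M → h1 z = h2 z - F z * wind γ z := by
    intro z _ hz
    simp only [hh1, hh2, wind]
    rw [Finset.mul_sum, ← Finset.sum_sub_distrib]
    refine Finset.sum_congr rfl fun i _ => ?_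
    have hne : ∀ t, γ i t ≠ z := fun t e => hz (e ▸ h.mem_front i t)
    have i1 := cint_integrable (a := 0) (b := 1) (h.cont i) (hφ i) (fun t _ => hne t)
    have i2 := (cint_integrable (a := 0) (b := 1) (h.cont i) (h.contDeriv i)
      (fun t _ => hne t)).const_mul (F z)
    unfold cint
    rw [← intervalIntegral.integral_const_mul, ← intervalIntegral.integral_sub i1 i2]
    refine intervalIntegral.integral_congr fun t _ => ?_
    show deriv (γ i) t * dslope F (γ i t) z
      = deriv (γ i) t * F (γ i t) / (γ i t - z) - F z * (deriv (γ i) t / (γ i t - z))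
    rw [dslope_of_ne _ (Ne.symm (hne t)), slope_def_field]
    have e1 : γ i t - z ≠ 0 := sub_ne_zero.mpr (hne t)
    have e2 : z - γ i t ≠ 0 := sub_ne_zero.mpr (Ne.symm (hne t))
    field_simp
    ring
  have hout : ∀ z ∈ U, z ∉ M → h1 z = h2 z := by
    intro z hz hzM
    have hzF : z ∉ frontier M := fun h' => hzM (hfrM h')
    rw [hrel z hz hzF, h.wind_eq hzF, if_neg hzM, mul_zero, sub_zero]
  set H : ℂ → ℂ := fun z => if z ∈ U then h1 z else h2 z with hH
  have hHM : ∀ z, z ∉ M → H z = h2 z := by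
    intro z hz
    simp only [hH]
    by_cases hzU : z ∈ U
    · rw [if_pos hzU, hout z hzU hz]
    · rw [if_neg hzU]
  have hHd : Differentiable ℂ H := by
    intro z
    by_cases hzU : z ∈ U
    · refine (h1d z hzU).congr_of_eventuallyEq ?_
      filter_upwards [hU.mem_nhds hzU] with w hw
      simp only [hH]
      rw [if_pos hw]
    · have hzM : z ∉ M := fun h' => hzU (hMU h')
      have hzF : z ∉ frontier M := fun h' => hzM (hfrM h')
      refine (h2d z hzF).congr_of_eventuallyEq ?_
      filter_upwards [h.compact.isClosed.isOpen_compl.mem_nhds hzM] with w hw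
      exact hHM w hw
  have h2lim : Tendsto h2 (cocompact ℂ) (𝓝 0) := by
    have h3 : ∀ j ∈ Finset.univ, Tendsto
        (fun z => cint (γ j) (fun t => deriv (γ j) t * F (γ j t)) 0 1 z)
        (cocompact ℂ) (𝓝 0) := fun j _ => cint_tendsto_zero (h.cont j) (hφ j) 0 1
    have h4 := tendsto_finsetSum Finset.univ h3
    rw [Finset.sum_const_zero] at h4
    exact h4
  have hHlim : Tendsto H (cocompact ℂ) (𝓝 0) := by
    refine h2lim.congr' ?_
    filter_upwards [h.compact.compl_mem_cocompact] with w hw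
    exact (hHM w hw).symm
  have h0 : H z₀ = 0 := hHd.apply_eq_of_tendsto_cocompact z₀ hHlim
  have hz₀M : z₀ ∈ M := interior_subset hz₀
  have hz₀F : z₀ ∉ frontier M := fun h' => h'.2 hz₀
  have hz₀U : z₀ ∈ U := hMU hz₀M
  simp only [hH] at h0
  rw [if_pos hz₀U, hrel z₀ hz₀U hz₀F, h.wind_eq hz₀F, if_pos hz₀M] at h0
  have h5 : h2 z₀ = F z₀ * (2 * Real.pi * Complex.I) := sub_eq_zero.mp h0
  have h6 : h2 z₀ = ∑ i, ∫ t in (0 : ℝ)..1, deriv (γ i) t * F (γ i t) / (γ i t - z₀) := rfl
  rw [← h6, h5]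
  ring

end Pool.Agent.MP9dd505
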