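import Mathlib
import Pool.Agent.Lib.MP_9dd505_an.Cauchy

set_option autoImplicit false

namespace Pool.Agent.MP9dd505

open Set Filter Topology MeasureTheory intervalIntegral
open scoped Interval

/-- The linear isomorphism `(x, y) ↦ k x + i y`. -/
noncomputable def phiLin (k : ℝ) (hk : 0 < k) : (ℝ × ℝ) ≃ₗ[ℝ] ℂ where
  toFun p := (k * p.1 : ℝ) + (p.2 : ℝ) * Complex.I
  map_add' p q := by
    apply Complex.ext
    · simp
      ring
    · simp
  map_smul' a p := by
    apply Complex.ext
    · simp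
      ring
    · simp
  invFun w := (w.re / k, w.im)
  left_inv p := by
    apply Prod.ext
    · simp
      field_simp
    · simp
  right_inv w := by
    apply Complex.ext
    · simp
      field_simp
    · simp

/-- The same as a continuous linear equivalence. -/
noncomputable def phi (k : ℝ) (hk : 0 < k) : (ℝ × ℝ) ≃L[ℝ] ℂ :=
  (phiLin k hk).toContinuousLinearEquiv

lemma phi_apply (k : ℝ) (hk : 0 < k) (p : ℝ × ℝ) :
    phi k hk p = (k * p.1 : ℝ) + (p.2 : ℝ) * Complex.I := rfl

lemma phi_re (k : ℝ) (hk : 0 < k) (p : ℝ × ℝ) : (phi k hk p).re = k * p.1 := by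
  rw [phi_apply]
  simp

lemma phi_im (k : ℝ) (hk : 0 < k) (p : ℝ × ℝ) : (phi k hk p).im = p.2 := by
  rw [phi_apply]
  simp

variable {M : Set (ℝ × ℝ)} {m : ℕ} {c : Fin m → ℝ → ℝ × ℝ}

lemma region_of (k : ℝ) (hk : 0 < k) (hcomp : IsCompact M) (hsm : ∀ i, ContDiff ℝ 1 (c i))
    (hper : ∀ i t, c i (t + 1) = c i t) (hreg : ∀ i t, deriv (c i) t ≠ 0)
    (hsimple : ∀ i j s t, s ∈ Ico (0 : ℝ) 1 → t ∈ Ico (0 : ℝ) 1 → c i s = c j t → i = j ∧ s = t)
    (hbd : frontier M = ⋃ i, range (c i))
    (hleft : ∀ i t, ∀ᶠ ε : ℝ in 𝓝[>] 0,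
      c i t + ε • ((-(deriv (c i) t).2, (deriv (c i) t).1) : ℝ × ℝ) ∈ interior M ∧
      c i t - ε • ((-(deriv (c i) t).2, (deriv (c i) t).1) : ℝ × ℝ) ∉ M) :
    Region (phi k hk '' M) (fun i t => phi k hk (c i t)) := by
  have hdiff : ∀ i, Differentiable ℝ (c i) := fun i => (hsm i).differentiable one_ne_zero
  have hder : ∀ i t, HasDerivAt (fun t => phi k hk (c i t)) (phi k hk (deriv (c i) t)) t := by
    intro i t
    exact (phi k hk).hasFDerivAt.comp_hasDerivAt t (hdiff i t).hasDerivAt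
  have hder' : ∀ i t, deriv (fun t => phi k hk (c i t)) t = phi k hk (deriv (c i) t) :=
    fun i t => (hder i t).deriv
  have hP : ∀ i, Function.Periodic (c i) 1 := hper
  refine ⟨hcomp.image (phi k hk).continuous, fun i => (phi k hk).contDiff.comp (hsm i), ?_, ?_, ?_,
    ?_, ?_⟩
  · intro i t
    simp only
    rw [hper i t]
  · intro i t h0
    rw [hder' i t] at h0
    exact hreg i t ((phi k hk).map_eq_zero_iff.mp h0)
  · intro i j s t h
    have h1 : c i s = c j t := (phi k hk).injective h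
    have hs : c i (Int.fract s) = c i s := by
      have := (hP i).sub_zsmul_eq (x := s) ⌊s⌋
      rw [zsmul_one] at this
      exact this
    have ht : c j (Int.fract t) = c j t := by
      have := (hP j).sub_zsmul_eq (x := t) ⌊t⌋
      rw [zsmul_one] at this
      exact this
    have h2 := hsimple i j (Int.fract s) (Int.fract t) ⟨Int.fract_nonneg s, Int.fract_lt_one s⟩
      ⟨Int.fract_nonneg t, Int.fract_lt_one t⟩ (by rw [hs, ht, h1])
    refine ⟨h2.1, ⌊s⌋ - ⌊t⌋, ?_⟩
    have h3 := h2.2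
    unfold Int.fract at h3
    push_cast
    linarith
  · have h1 : frontier (phi k hk '' M) = phi k hk '' frontier M :=
      ((phi k hk).toHomeomorph.image_frontier M).symm
    rw [h1, hbd, image_iUnion]
    refine iUnion_congr fun i => ?_
    rw [← range_comp]
    rfl
  · intro i t
    set v := deriv (c i) t with hv
    have hτ : phi k hk v ≠ 0 := fun h0 => hreg i t ((phi k hk).map_eq_zero_iff.mp h0)
    refine ⟨phi k hk (-v.2, v.1) / phi k hk v, ?_, ?_⟩
    · rw [Complex.div_im, phi_re, phi_im, phi_re, phi_im]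
      have hn : 0 < Complex.normSq (phi k hk v) := Complex.normSq_pos.mpr hτ
      have h1 : v.1 * (k * v.1) / Complex.normSq (phi k hk v)
          - k * -v.2 * v.2 / Complex.normSq (phi k hk v)
          = k * (v.1 ^ 2 + v.2 ^ 2) / Complex.normSq (phi k hk v) := by ring
      rw [h1]
      have h2 : 0 < v.1 ^ 2 + v.2 ^ 2 := by
        have hv0 : v ≠ 0 := hreg i t
        by_contra hcon
        push Not at hcon
        have e1 : v.1 = 0 := by nlinarith [sq_nonneg v.1, sq_nonneg v.2]
        have e2 : v.2 = 0 := by nlinarith [sq_nonneg v.1, sq_nonneg v.2]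
        exact hv0 (Prod.ext e1 e2)
      positivity
    · have hint : interior (phi k hk '' M) = phi k hk '' interior M :=
        ((phi k hk).toHomeomorph.image_interior M).symm
      filter_upwards [hleft i t] with ε hε
      obtain ⟨h1, h2⟩ := hε
      have e : (ε : ℂ) * (phi k hk (-v.2, v.1) / phi k hk v * deriv (fun t => phi k hk (c i t)) t)
          = phi k hk (ε • (-v.2, v.1)) := by
        rw [hder' i t, div_mul_cancel₀ _ hτ, map_smul, Complex.real_smul]
      rw [e, ← map_add, ← map_sub, hint]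
      refine ⟨mem_image_of_mem _ h1, ?_⟩
      rintro ⟨x, hx, hxe⟩
      rw [(phi k hk).injective hxe] at hx
      exact h2 hx

/-- Cauchy's formula for `∂₁ f + k i ∂₂ f = 0`. -/
theorem planar (k : ℝ) (hk : 0 < k) (hcomp : IsCompact M) (hsm : ∀ i, ContDiff ℝ 1 (c i))
    (hper : ∀ i t, c i (t + 1) = c i t) (hreg : ∀ i t, deriv (c i) t ≠ 0)
    (hsimple : ∀ i j s t, s ∈ Ico (0 : ℝ) 1 → t ∈ Ico (0 : ℝ) 1 → c i s = c j t → i = j ∧ s = t)
    (hbd : frontier M = ⋃ i, range (c i))
    (hleft : ∀ i t, ∀ᶠ ε : ℝ in 𝓝[>] 0,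
      c i t + ε • ((-(deriv (c i) t).2, (deriv (c i) t).1) : ℝ × ℝ) ∈ interior M ∧
      c i t - ε • ((-(deriv (c i) t).2, (deriv (c i) t).1) : ℝ × ℝ) ∉ M)
    {U : Set (ℝ × ℝ)} (hU : IsOpen U) (hMU : M ⊆ U) {f : ℝ × ℝ → ℂ}
    (hf : ∀ x ∈ U, DifferentiableAt ℝ f x ∧
      fderiv ℝ f x (1, 0) + (k * Complex.I) * fderiv ℝ f x (0, 1) = 0)
    {x₀ : ℝ × ℝ} (hx₀ : x₀ ∈ interior M) :
    f x₀ = ∑ i, ∫ t in (0 : ℝ)..1, (-(1 / (2 * Real.pi)) / (phi k hk (c i t) - phi k hk x₀)) *
      ((deriv (c i) t).1 * (k * Complex.I) - (deriv (c i) t).2) * f (c i t) := by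
  have hR := region_of k hk hcomp hsm hper hreg hsimple hbd hleft
  have hdiff : ∀ i, Differentiable ℝ (c i) := fun i => (hsm i).differentiable one_ne_zero
  have hder : ∀ i t, deriv (fun t => phi k hk (c i t)) t = phi k hk (deriv (c i) t) := by
    intro i t
    exact ((phi k hk).hasFDerivAt.comp_hasDerivAt t (hdiff i t).hasDerivAt).deriv
  have hU' : IsOpen (phi k hk '' U) := (phi k hk).toHomeomorph.isOpenMap U hU
  have hF : DifferentiableOn ℂ (fun w => f ((phi k hk).symm w)) (phi k hk '' U) := by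
    rintro _ ⟨x, hx, rfl⟩
    refine DifferentiableAt.differentiableWithinAt ?_
    rw [differentiableAt_complex_iff_differentiableAt_real]
    obtain ⟨h1, h2⟩ := hf x hx
    have h3 : HasFDerivAt (fun w => f ((phi k hk).symm w))
        ((fderiv ℝ f x).comp ((phi k hk).symm : ℂ →L[ℝ] ℝ × ℝ)) (phi k hk x) := by
      have h4 : HasFDerivAt f (fderiv ℝ f x) ((phi k hk).symm (phi k hk x)) := by
        rw [(phi k hk).symm_apply_apply]
        exact h1.hasFDerivAt
      exact h4.comp (phi k hk x) (phi k hk).symm.hasFDerivAt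
    refine ⟨h3.differentiableAt, ?_⟩
    rw [h3.fderiv]
    have e1 : (phi k hk).symm Complex.I = (0, 1) := by
      rw [ContinuousLinearEquiv.symm_apply_eq, phi_apply]
      simp
    have e2 : (phi k hk).symm 1 = (1 / k : ℝ) • ((1, 0) : ℝ × ℝ) := by
      rw [ContinuousLinearEquiv.symm_apply_eq, phi_apply]
      simp
      field_simp
      norm_cast
      rw [div_self hk.ne']
    show (fderiv ℝ f x) ((phi k hk).symm Complex.I) = Complex.I • (fderiv ℝ f x) ((phi k hk).symm 1)
    rw [e1, e2, map_smul, Complex.real_smul, smul_eq_mul]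
    have hk' : (k : ℂ) ≠ 0 := by exact_mod_cast hk.ne'
    have hI : Complex.I * Complex.I = -1 := Complex.I_mul_I
    push_cast
    field_simp
    linear_combination (-Complex.I) * h2 + (k * fderiv ℝ f x (0, 1)) * hI
  have hz₀ : phi k hk x₀ ∈ interior (phi k hk '' M) := by
    have hint : interior (phi k hk '' M) = phi k hk '' interior M :=
      ((phi k hk).toHomeomorph.image_interior M).symm
    rw [hint]
    exact mem_image_of_mem _ hx₀
  have key := hR.cauchy hU' (image_mono hMU) hF hz₀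
  simp only [(phi k hk).symm_apply_apply] at key
  have hpi : (2 * Real.pi * Complex.I : ℂ) ≠ 0 := Complex.two_pi_I_ne_zero
  have e : f x₀ = (2 * Real.pi * Complex.I)⁻¹ * (2 * Real.pi * Complex.I * f x₀) := by
    rw [← mul_assoc, inv_mul_cancel₀ hpi, one_mul]
  rw [e, ← key, Finset.mul_sum]
  refine Finset.sum_congr rfl fun i _ => ?_
  rw [← intervalIntegral.integral_const_mul]
  refine intervalIntegral.integral_congr fun t _ => ?_
  have hne : phi k hk (c i t) - phi k hk x₀ ≠ 0 := by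
    rw [sub_ne_zero]
    intro h0
    have h1 := (phi k hk).injective h0
    have h2 : c i t ∈ frontier M := by
      rw [hbd]
      exact mem_iUnion.mpr ⟨i, t, rfl⟩
    rw [h1] at h2
    exact h2.2 hx₀
  show (2 * Real.pi * Complex.I)⁻¹ * (deriv (fun t => phi k hk (c i t)) t * f (c i t) /
    (phi k hk (c i t) - phi k hk x₀)) = _
  rw [hder i t, phi_apply k hk (deriv (c i) t)]
  have hI : Complex.I ≠ 0 := Complex.I_ne_zero
  have hpi' : (Real.pi : ℂ) ≠ 0 := by exact_mod_cast Real.pi_ne_zero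
  have hI2 : Complex.I ^ 2 = -1 := Complex.I_sq
  push_cast
  field_simp
  linear_combination ((k : ℂ) * (deriv (c i) t).1 * f (c i t)) * hI2

end Pool.Agent.MP9dd505
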